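import Pool.Agent.N504.TL.LDef

/-!
# Comparison of the definitions of the `L²`-torsion
-/

set_option autoImplicit false

noncomputable section

namespace Pool.Agent.N504.TL

open Pool.Agent.W907.SG Pool.Agent.Helper993.FK

theorem detK_congr {E : Type} [NormedAddCommGroup E] [InnerProductSpace ℂ E] (K K' : Submodule ℂ E)
    [CompleteSpace K] [CompleteSpace K'] (h : K = K') (D D' : E →L[ℂ] E) (hD : D = D') {r : ℕ} (e : Fin r → E) :
    detK K D e = detK K' D' e := by
  subst h; subst hD; rfl

theorem l2_ext {A : Type} {r : ℕ} (x y : L2Pow A r) (h : ∀ j w, coord x j w = coord y j w) : x = y := by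
  apply lp.ext
  funext p
  exact h p.1 p.2

theorem bdC_eq {V : Type} [Fintype V] [LinearOrder V] (G : SimpleGraph V) : bdC G = rMul (dM G) := by
  ext x
  apply l2_ext
  intro j w
  exact ((exists_bd G).choose_spec x j w).trans (coord_dM G x j w).symm

theorem cmpK_eq {V : Type} [Fintype V] [LinearOrder V] (G : SimpleGraph V) : cmpK (LC G) (rMul (dM G)) = dL G := by
  ext x : 1
  have h : rMul (dM G) x.1 ∈ LC G := dM_mem G x.1 x.2
  apply Subtype.ext
  change ((LC G).orthogonalProjectionOnto (rMul (dM G) x.1) : L2Pow (W G) (Fintype.card (Finset V))) = rMul (dM G) x.1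
  exact Submodule.starProjection_eq_self_iff.2 h

theorem detC_eq {V : Type} [Fintype V] [LinearOrder V] (G : SimpleGraph V) (n : ℕ) : detC G n = detn G n := by
  unfold detC
  rw [detK_congr (LD G) (LC G) (LD_eq G) (bdC G) (rMul (dM G)) (bdC_eq G)]
  unfold detK detn
  rw [cmpK_eq]
  have h : (fun j => (LC G).orthogonalProjectionOnto (uv G n j)) = evn G n := by
    funext j
    unfold uv evn ev
    split_ifs with h1
    · rfl
    · exact map_zero _
  rw [h]
  rfl

theorem rhoC_eq {V : Type} [Fintype V] [LinearOrder V] (G : SimpleGraph V) : rhoC G = rho G := by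
  unfold rhoC rho
  simp only [detC_eq]

end Pool.Agent.N504.TL
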