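import Pool.Agent.TH652.JoinL2

/-!
# The triple join
-/

set_option autoImplicit false

namespace Pool.Agent.N504.TL

open Pool.Agent.TH652.Join (join ordSum)

/-- the graph of the join `T * T * T` -/
def join3 {V : Type} (G : SimpleGraph V) : SimpleGraph ((V ⊕ V) ⊕ V) := join (join G G) G

/-- the order of the vertices of `T * T * T`: first the vertices of the first copy of `T`, then those of the second
copy, then those of the third copy -/
@[instance_reducible] def ord3 (V : Type) [LinearOrder V] : LinearOrder ((V ⊕ V) ⊕ V) :=
  @ordSum (V ⊕ V) V (ordSum V V) _

end Pool.Agent.N504.TL
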