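import Pool.Agent.N504.TG.ChainDef
import Pool.Agent.N504.TL.J3Def

/-!
# Torsion growth along chains, the triple join
-/

set_option autoImplicit false

namespace Pool.Agent.N504.TL

open Pool.Agent.W907.SG Pool.Agent.N504.TG
open Pool.Agent.TH652.Join (join ordSum)

/-- the normalized logarithm of the order of the torsion of the `k`-th integral homology of the `i`-th covering space
in the tower given by the chain `K` of subgroups of the right-angled Coxeter group of `J` -/
noncomputable def trate {V : Type} [Fintype V] [LinearOrder V] (J : SimpleGraph V) (K : ℕ → Subgroup (W J))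
    (k i : ℕ) : ℝ :=
  Real.log (tors J (K i) k) / (K i).relIndex (K 0)

theorem trate_ge {V : Type} [Fintype V] [LinearOrder V] (J : SimpleGraph V) {K : ℕ → Subgroup (W J)}
    (hK : Chain _ K) (k i : ℕ) (c : ℝ) (h : c * (K i).index ≤ Real.log (tors J (K i) k)) :
    c * (K 0).index ≤ trate J K k i := by
  have hidx := Subgroup.relIndex_mul_index (hK.anti (Nat.zero_le i))
  have hpos : 0 < (K i).relIndex (K 0) := by
    refine Nat.pos_of_ne_zero fun h0 => (hK.fin i).index_ne_zero ?_
    rw [← hidx, h0, zero_mul]
  have hpr : (0 : ℝ) < ((K i).relIndex (K 0) : ℕ) := by exact_mod_cast hpos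
  unfold trate
  rw [le_div_iff₀ hpr]
  refine le_trans (le_of_eq ?_) h
  rw [← hidx]
  push_cast
  ring

theorem not_tendsto_trate {V : Type} [Fintype V] [LinearOrder V] (J : SimpleGraph V) {K : ℕ → Subgroup (W J)}
    (hK : Chain _ K) (k : ℕ) (c : ℝ) (hc : 0 < c) (h : ∀ᶠ i in Filter.atTop, c * (K 0).index ≤ trate J K k i) :
    ¬ Filter.Tendsto (trate J K k) Filter.atTop (nhds 0) := by
  intro hlim
  have h0 : (0 : ℝ) < (K 0).index := by
    exact_mod_cast Nat.pos_of_ne_zero (hK.fin 0).index_ne_zero
  have h1 := hlim.eventually (gt_mem_nhds (mul_pos hc h0))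
  obtain ⟨i, h2, h3⟩ := (h.and h1).exists
  linarith

end Pool.Agent.N504.TL
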