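import Pool.Agent.N504.TG.Two
import Pool.Agent.N504.TL.RateDef

/-!
# Torsion growth of the cube
-/

set_option autoImplicit false

namespace Pool.Agent.N504.TL

open Filter Topology
open Pool.Agent.W907.SG Pool.Agent.N504.TG
open Pool.Agent.TH652.Join (join ordSum)
open Pool.Agent.R782.Bal (MF cs EmbX)

theorem three_growth (p d N n : ℕ) [Fact p.Prime] (hp : p ≠ 2) (X : Finset (Finset (Fin N)))
    (col : Fin N → Fin (d + 1)) (L : SimpleGraph (Fin n)) (κ : Fin n → Fin (d + 1)) (e : Fin n → Bool → Fin N)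
    (z : (Fin (d + 1) → Fin n) → ZMod p)
    (hX : ColX d X col) (hO : OctIn p d X col L κ e z)
    [Fintype (MF X col)] [LinearOrder (MF X col)] :
    letI := ord3 (MF X col)
    ∃ K : ℕ → Subgroup (W (join3 (cs X col))), Chain _ K ∧
      ∀ ε : ℝ, 0 < ε → ∀ᶠ i in atTop, (1 - ε) * Real.log p * (K i).index ≤
        Real.log (tors (join3 (cs X col)) (K i) (3 * d + 1)) := by
  obtain ⟨H, h1, h2, h3, h4⟩ := chain_tsys hp hX.down hX.mono hX.emb hO
  have hlog : 0 < Real.log p := Real.log_pos (by exact_mod_cast (Fact.out : p.Prime).one_lt)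
  have hC : Chain (join3 (cs X col)) (fun i => PS (PS (H i) (H i)) (H i)) :=
    ⟨fun i j hij => PS_mono (PS_mono (h1 hij) (h1 hij)) (h1 hij),
      fun i => PS_normal (PS_normal (h2 i).1 (h2 i).1) (h2 i).1,
      fun i => PS_fin (PS_fin (h2 i).2.1 (h2 i).2.1) (h2 i).2.1,
      fun i => PS_ker (PS_ker (h2 i).2.2 (h2 i).2.2) (h2 i).2.2,
      fun g hg => PS_bot _ _ (fun g hg => PS_bot _ _ h3 h3 g hg) h3 g hg⟩
  refine ⟨fun i => PS (PS (H i) (H i)) (H i), hC, fun ε hε => ?_⟩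
  letI := ordSum (MF X col) (MF X col)
  letI := ord3 (MF X col)
  obtain ⟨δ, hδ0, hδ1, hδ2⟩ : ∃ δ : ℝ, 0 < δ ∧ δ ≤ 1 ∧ 3 * δ ≤ ε :=
    ⟨min 1 (ε / 3), lt_min one_pos (by positivity), min_le_left _ _, by
      have := min_le_right 1 (ε / 3); linarith⟩
  obtain ⟨i0, hi0⟩ := h4 δ hδ0
  filter_upwards [eventually_ge_atTop i0] with i hi
  haveI := (h2 i).2.1
  haveI := PS_fin (G := cs X col) (H := cs X col) (h2 i).2.1 (h2 i).2.1
  haveI := PS_fin (G := join (cs X col) (cs X col)) (H := cs X col) this (h2 i).2.1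
  letI : Fintype (QX (cs X col) (H i)) := @Fintype.ofFinite _ (Finite.of_equiv _
    (QuotientGroup.quotientRightRelEquivQuotientLeftRel (H i)).symm)
  letI : Fintype (QX (join (cs X col) (cs X col)) (PS (H i) (H i))) := @Fintype.ofFinite _ (Finite.of_equiv _
    (QuotientGroup.quotientRightRelEquivQuotientLeftRel (PS (H i) (H i))).symm)
  letI : Fintype (QX (join (join (cs X col) (cs X col)) (cs X col)) (PS (PS (H i) (H i)) (H i))) :=
    @Fintype.ofFinite _ (Finite.of_equiv _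
    (QuotientGroup.quotientRightRelEquivQuotientLeftRel (PS (PS (H i) (H i)) (H i))).symm)
  obtain ⟨ι, _, _, t1, t2⟩ := hi0 i hi
  have hx2 : XSys p (join (cs X col) (cs X col))
      (Pool.Agent.Y132.SI.aa (join (cs X col) (cs X col)) (PS (H i) (H i))) (d + d + 1) (ι × ι) :=
    PS_xsys (tsys_mul t1 t1)
  have hx : XSys p (join (join (cs X col) (cs X col)) (cs X col))
      (Pool.Agent.Y132.SI.aa (join (join (cs X col) (cs X col)) (cs X col)) (PS (PS (H i) (H i)) (H i)))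
      (d + d + 1 + d) ((ι × ι) × ι) := PS_xsys (xsys_mul hx2 (TSys.xsys t1))
  rw [show d + d + 1 + d = 3 * d + 1 by ring] at hx
  have h5 := log_tors hx
  refine le_trans ?_ h5
  have h6 : ((PS (PS (H i) (H i)) (H i)).index : ℝ) = (H i).index * (H i).index * (H i).index := by
    rw [PS_index, PS_index]
    push_cast
    ring
  show (1 - ε) * Real.log p * ((PS (PS (H i) (H i)) (H i)).index : ℝ) ≤ _
  rw [h6, Fintype.card_prod, Fintype.card_prod]
  push_cast
  have hi1 : (0 : ℝ) ≤ (H i).index := Nat.cast_nonneg _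
  set a : ℝ := ((H i).index : ℝ) with ha
  set b : ℝ := (Fintype.card ι : ℝ) with hb
  have hδ3 : 0 ≤ 1 - δ := by linarith
  have h7 : 0 ≤ (1 - δ) * a := mul_nonneg hδ3 hi1
  have h8 : ((1 - δ) * a) * ((1 - δ) * a) ≤ b * b := mul_le_mul t2 t2 h7 (h7.trans t2)
  have h9 : ((1 - δ) * a) * ((1 - δ) * a) * ((1 - δ) * a) ≤ b * b * b :=
    mul_le_mul h8 t2 h7 (mul_nonneg (h7.trans t2) (h7.trans t2))
  have h10 : 0 ≤ a * a * a := mul_nonneg (mul_nonneg hi1 hi1) hi1
  have h11 : (1 - ε) ≤ (1 - δ) * (1 - δ) * (1 - δ) := by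
    nlinarith [mul_nonneg hδ0.le hδ0.le, mul_nonneg (mul_nonneg hδ0.le hδ0.le) hδ3]
  have h12 : (1 - ε) * (a * a * a) ≤ b * b * b := by
    refine le_trans (mul_le_mul_of_nonneg_right h11 h10) (le_trans (le_of_eq ?_) h9)
    ring
  nlinarith

end Pool.Agent.N504.TL
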