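import Pool.Agent.N504.TL.Van
import Pool.Agent.N504.TL.Three
import Pool.Agent.R782.Bal.Main

/-!
# The cube
-/

set_option autoImplicit false

open scoped Topology

noncomputable section

namespace Pool.Agent.N504.TL

open Pool.Agent.W907.SG Pool.Agent.W907.SM Pool.Agent.W461.SGN Pool.Agent.N504.TG
open Pool.Agent.TH652.Join (join ordSum ljoin)

attribute [local instance] ordSum

/-- residual chains with the classes used for the determinants -/
theorem chain_inst {V : Type} [Finite V] (G : SimpleGraph V) : ∃ N : ℕ → Subgroup (W G), (∀ i, (N i).Normal) ∧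
    (∀ i, Finite (W G ⧸ N i)) ∧ Antitone N ∧ ⨅ i, N i = ⊥ := by
  haveI : Fact (Nat.Prime 3) := ⟨by norm_num⟩
  obtain ⟨H, h1, h2, h3⟩ := chain_exists G 3 (by norm_num)
  refine ⟨H, fun i => (h2 i).nor, fun i => ?_, h1, ?_⟩
  · haveI := (h2 i).fin
    exact inferInstance
  · rw [eq_bot_iff]
    intro g hg
    rw [Subgroup.mem_bot]
    by_contra hne
    obtain ⟨i, hi⟩ := h3 {g} (by simpa using Ne.symm hne)
    exact hi i le_rfl g (Finset.mem_singleton_self g) (Subgroup.mem_iInf.mp hg i)

theorem lv_join {V U : Type} [Finite V] [Finite U] {G : SimpleGraph V} {H : SimpleGraph U} (h : ∀ i, LV G i)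
    (i : ℕ) : LV (join G H) i := ljoin G H i fun p _ _ => Or.inl (h p)

/-- the analytic part of the theorem on the cube -/
theorem join3_rho {V : Type} [Fintype V] [LinearOrder V] (G : SimpleGraph V) (h : ∀ i, LV G i) :
    (∀ i, LV (join3 G) i) ∧
    letI := ord3 V
    (∀ n, 0 < detn (join3 G) n) ∧ rho (join3 G) = 0 := by
  have h2 : ∀ i, LV (join G G) i := lv_join h
  have h3 : ∀ i, LV (join3 G) i := lv_join h2
  refine ⟨h3, ?_⟩
  letI := ord3 V
  have i1 : ∀ x : LC G, lap G x = 0 → x = 0 := lap_inj fun i => h i _ _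
  have i2 : ∀ x : LC (join G G), lap (join G G) x = 0 → x = 0 := lap_inj fun i => h2 i _ _
  have i3 : ∀ x : LC (join3 G), lap (join3 G) x = 0 → x = 0 := lap_inj fun i => h3 i _ _
  have hst : ∀ m, stn (join3 G) m = 0 := fun m => stn_join m (stg_zero i2) (stg_zero i1)
  obtain ⟨N, n1, n2, n3, n4⟩ := chain_inst (join3 G)
  haveI := n1
  haveI := n2
  exact ⟨fun n => detn_pos i3 N n3 n4 n, rho_zero hst i3 N n3 n4⟩

end Pool.Agent.N504.TL
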