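import Pool.Agent.N504.TL.TDef
import Pool.Agent.N504.TL.RateDef

/-!
# Comparison of the definitions of the torsion
-/

set_option autoImplicit false

noncomputable section

namespace Pool.Agent.N504.TL

open Pool.Agent.W907.SG Pool.Agent.N504.TG

theorem mem_CH {V : Type} (G : SimpleGraph V) (H : Subgroup (W G)) (i : ℕ) (c : W G → Finset V → ℤ) :
    c ∈ CH G H i ↔ ICh G H i c :=
  ⟨fun h => ⟨h.1, h.2.1, h.2.2⟩, fun h => ⟨h.inv, h.deg, h.ori⟩⟩

section
variable {V : Type} [Fintype V] [LinearOrder V] (G : SimpleGraph V) (H : Subgroup (W G)) (i : ℕ)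

theorem mem_ZH (c : W G → Finset V → ℤ) : c ∈ ZH G H i ↔ ICh G H i c ∧ ∀ w T, bdc c w T = 0 := by
  unfold ZH
  rw [Submodule.mem_inf, mem_CH, LinearMap.mem_ker]
  constructor
  · rintro ⟨h1, h2⟩
    exact ⟨h1, fun w T => congrFun (congrFun h2 w) T⟩
  · rintro ⟨h1, h2⟩
    exact ⟨h1, funext fun w => funext fun T => h2 w T⟩

theorem mem_BH (c : W G → Finset V → ℤ) :
    c ∈ BH G H i ↔ ∃ b, ICh G H (i + 1) b ∧ ∀ w T, bdc b w T = c w T := by
  unfold BH
  rw [Submodule.mem_map]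
  constructor
  · rintro ⟨b, hb, h⟩
    exact ⟨b, (mem_CH G H _ b).1 hb, fun w T => congrFun (congrFun h w) T⟩
  · rintro ⟨b, hb, h⟩
    exact ⟨b, (mem_CH G H _ b).2 hb, funext fun w => funext fun T => h w T⟩

/-- the homology class -/
def cls : ↥(ZH G H i) →ₗ[ℤ] (↥(ZH G H i) ⧸ (BH G H i).submoduleOf (ZH G H i)) :=
  ((BH G H i).submoduleOf (ZH G H i)).mkQ

theorem cls_eq_zero (z : ZH G H i) : cls G H i z = 0 ↔ (z : W G → Finset V → ℤ) ∈ BH G H i := by
  unfold cls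
  rw [Submodule.mkQ_apply, Submodule.Quotient.mk_eq_zero]
  exact Iff.rfl

/-- the torsion class of a cycle -/
def tcl (c : TCy G H i) : AddCommGroup.torsion (HH G H i) :=
  ⟨cls G H i ⟨c.1, (mem_ZH G H i c.1).2 ⟨c.2.1, c.2.2.1⟩⟩, by
    obtain ⟨m, hm, b, hb, h⟩ := c.2.2.2
    refine isOfFinAddOrder_iff_nsmul_eq_zero.2 ⟨m, hm, ?_⟩
    have h1 : cls G H i (m • ⟨c.1, (mem_ZH G H i c.1).2 ⟨c.2.1, c.2.2.1⟩⟩) = 0 := by
      rw [cls_eq_zero, mem_BH]
      refine ⟨b, hb, fun w T => ?_⟩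
      rw [h w T]
      simp
    rw [map_nsmul] at h1
    exact h1⟩

theorem tcl_eq_iff (c d : TCy G H i) :
    tcl G H i c = tcl G H i d ↔ ∃ b, ICh G H (i + 1) b ∧ ∀ w T, bdc b w T = c.1 w T - d.1 w T := by
  have h1 : tcl G H i c = tcl G H i d ↔
      cls G H i ⟨c.1, (mem_ZH G H i c.1).2 ⟨c.2.1, c.2.2.1⟩⟩ = cls G H i ⟨d.1, (mem_ZH G H i d.1).2 ⟨d.2.1, d.2.2.1⟩⟩ :=
    ⟨fun h => congrArg Subtype.val h, fun h => Subtype.ext h⟩
  rw [h1, ← sub_eq_zero, ← map_sub, cls_eq_zero, mem_BH]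
  rfl

theorem torN_eq : torN G H i = tors G H i := by
  unfold torN tors
  refine Nat.card_congr (Equiv.ofBijective (Quot.lift (tcl G H i) fun c d h => (tcl_eq_iff G H i c d).2 h) ⟨?_, ?_⟩)
  · rintro ⟨c⟩ ⟨d⟩ h
    exact Quot.sound ((tcl_eq_iff G H i c d).1 h)
  · rintro ⟨x, hx⟩
    obtain ⟨z, rfl⟩ := Submodule.mkQ_surjective ((BH G H i).submoduleOf (ZH G H i)) x
    obtain ⟨m, hm, h1⟩ := isOfFinAddOrder_iff_nsmul_eq_zero.1 hx
    have hz := (mem_ZH G H i z.1).1 z.2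
    have h2 : cls G H i (m • z) = 0 := by
      rw [map_nsmul]
      exact h1
    rw [cls_eq_zero, mem_BH] at h2
    obtain ⟨b, hb, h3⟩ := h2
    refine ⟨Quot.mk _ ⟨z.1, hz.1, hz.2, m, hm, b, hb, fun w T => ?_⟩, ?_⟩
    · rw [h3 w T]
      simp
    · rfl

end

theorem rch_of {V : Type} (J : SimpleGraph V) (K : ℕ → Subgroup (W J)) (h : Chain J K) : RCh J K := by
  refine ⟨h.anti, h.nor, h.fin, fun i f g hg => ?_, h.bot⟩
  have h1 : Pool.Agent.W461.SGN.th J g = 1 := h.ker i hg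
  classical
  obtain ⟨l, rfl⟩ := (cox J).toCoxeterSystem.wordProd_surjective g
  have h2 : ∀ (M : Type) [CommMonoid M] (f : W J →* M),
      f ((cox J).toCoxeterSystem.wordProd l) = ∏ u ∈ l.toFinset, f ((cox J).simple u) ^ l.count u := by
    intro M _ f
    unfold CoxeterSystem.wordProd
    rw [map_list_prod, List.map_map, Finset.prod_list_map_count]
    rfl
  rw [h2]
  refine Finset.prod_eq_one fun v hv => ?_
  have h3 : l.count v % 2 = 0 := by
    have h4 := congrFun h1 v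
    rw [h2] at h4
    simp only [Finset.prod_apply, Pi.pow_apply, Pool.Agent.W461.SGN.th_simple, Pi.one_apply] at h4
    rw [Finset.prod_eq_single v (fun u _ hu => by rw [if_neg (Ne.symm hu), one_pow])
      (fun hv' => absurd hv hv'), if_pos rfl] at h4
    by_contra h5
    rw [Odd.neg_one_pow (Nat.odd_iff.2 (by omega))] at h4
    exact absurd h4 (by decide)
  have h6 : f ((cox J).simple v) ^ 2 = 1 := Int.units_sq _
  rw [← Nat.div_add_mod (l.count v) 2, h3, add_zero, pow_mul, h6, one_pow]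

theorem trat_eq {V : Type} [Fintype V] [LinearOrder V] (J : SimpleGraph V) (K : ℕ → Subgroup (W J)) (k i : ℕ) :
    trat J K k i = trate J K k i := by
  unfold trat trate
  rw [torN_eq]

end Pool.Agent.N504.TL
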