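import Pool.Agent.Helper993.RMul

/-!
# Coordinates of right multiplications
-/

set_option autoImplicit false

open scoped InnerProductSpace

noncomputable section

namespace Pool.Agent.N504.TL

open Pool.Agent.Helper993.FK

variable {Q : Type} [Group Q] {r : ℕ}

/-- the contribution of the group ring element `a` -/
def act (a : MonoidAlgebra ℚ Q) (x : L2Pow Q r) (i : Fin r) (w : Q) : ℂ :=
  ∑ g ∈ a.coeff.support, ((a.coeff g : ℚ) : ℂ) * coord x i (w * g⁻¹)

theorem act_eq_sum (a : MonoidAlgebra ℚ Q) (x : L2Pow Q r) (i : Fin r) (w : Q) (S : Finset Q)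
    (hS : a.coeff.support ⊆ S) : act a x i w = ∑ g ∈ S, ((a.coeff g : ℚ) : ℂ) * coord x i (w * g⁻¹) := by
  unfold act
  apply Finset.sum_subset hS
  intro g _ hg
  rw [Finsupp.notMem_support_iff] at hg
  simp [hg]

theorem act_zero (x : L2Pow Q r) (i : Fin r) (w : Q) : act 0 x i w = 0 := by
  simp [act]

theorem act_add (a b : MonoidAlgebra ℚ Q) (x : L2Pow Q r) (i : Fin r) (w : Q) :
    act (a + b) x i w = act a x i w + act b x i w := by
  classical
  rw [act_eq_sum (a + b) x i w (a.coeff.support ∪ b.coeff.support)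
    (by rw [MonoidAlgebra.coeff_add]; exact Finsupp.support_add),
    act_eq_sum a x i w _ Finset.subset_union_left, act_eq_sum b x i w _ Finset.subset_union_right,
    ← Finset.sum_add_distrib]
  apply Finset.sum_congr rfl
  intro g _
  simp [add_mul]

theorem act_sum {ι : Type} (S : Finset ι) (a : ι → MonoidAlgebra ℚ Q) (x : L2Pow Q r) (i : Fin r) (w : Q) :
    act (∑ k ∈ S, a k) x i w = ∑ k ∈ S, act (a k) x i w := by
  classical
  induction S using Finset.induction_on with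
  | empty => simp [act_zero]
  | insert k S hk ih => rw [Finset.sum_insert hk, Finset.sum_insert hk, act_add, ih]

theorem act_single (g : Q) (c : ℚ) (x : L2Pow Q r) (i : Fin r) (w : Q) :
    act (MonoidAlgebra.single g c) x i w = (c : ℂ) * coord x i (w * g⁻¹) := by
  classical
  rw [act_eq_sum _ x i w {g} (by rw [MonoidAlgebra.coeff_single]; exact Finsupp.support_single_subset)]
  simp

theorem coord_rMul {s : ℕ} (A : Matrix (Fin r) (Fin s) (MonoidAlgebra ℚ Q)) (x : L2Pow Q r) (j : Fin s) (w : Q) :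
    coord (rMul A x) j w = ∑ i, act (A i j) x i w := rMul_apply A x j w

omit [Group Q] in
theorem coord_sub (x y : L2Pow Q r) (j : Fin r) (h : Q) : coord (x - y) j h = coord x j h - coord y j h := rfl

omit [Group Q] in
theorem coord_neg (x : L2Pow Q r) (j : Fin r) (h : Q) : coord (-x) j h = - coord x j h := rfl

omit [Group Q] in
/-- the coordinates are continuous -/
theorem coord_continuous (j : Fin r) (h : Q) : Continuous fun x : L2Pow Q r => coord x j h := by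
  have hL : LipschitzWith 1 (fun x : L2Pow Q r => coord x j h) := by
    refine LipschitzWith.of_dist_le_mul fun x y => ?_
    rw [dist_eq_norm, dist_eq_norm, NNReal.coe_one, one_mul, ← coord_sub]
    exact lp.norm_apply_le_norm (by norm_num) (show lp (fun _ : Fin r × Q => ℂ) 2 from (x - y)) (j, h)
  exact hL.continuous

section inner
omit [Group Q]

theorem iaddr (x y z : L2Pow Q r) : ⟪x, y + z⟫_ℂ = ⟪x, y⟫_ℂ + ⟪x, z⟫_ℂ := inner_add_right _ _ _

theorem iaddl (x y z : L2Pow Q r) : ⟪x + y, z⟫_ℂ = ⟪x, z⟫_ℂ + ⟪y, z⟫_ℂ := inner_add_left _ _ _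

theorem isubr (x y z : L2Pow Q r) : ⟪x, y - z⟫_ℂ = ⟪x, y⟫_ℂ - ⟪x, z⟫_ℂ := inner_sub_right _ _ _

theorem isubl (x y z : L2Pow Q r) : ⟪x - y, z⟫_ℂ = ⟪x, z⟫_ℂ - ⟪y, z⟫_ℂ := inner_sub_left _ _ _

theorem inegl (x y : L2Pow Q r) : ⟪-x, y⟫_ℂ = -⟪x, y⟫_ℂ := inner_neg_left _ _

theorem izerol (y : L2Pow Q r) : ⟪(0 : L2Pow Q r), y⟫_ℂ = 0 := inner_zero_left _

theorem izeror (x : L2Pow Q r) : ⟪x, (0 : L2Pow Q r)⟫_ℂ = 0 := inner_zero_right _

theorem ismull (c : ℂ) (x y : L2Pow Q r) : ⟪c • x, y⟫_ℂ = starRingEnd ℂ c * ⟪x, y⟫_ℂ := inner_smul_left _ _ _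

theorem ismulr (c : ℂ) (x y : L2Pow Q r) : ⟪x, c • y⟫_ℂ = c * ⟪x, y⟫_ℂ := inner_smul_right _ _ _

theorem isuml {ι : Type} (S : Finset ι) (f : ι → L2Pow Q r) (y : L2Pow Q r) :
    ⟪∑ i ∈ S, f i, y⟫_ℂ = ∑ i ∈ S, ⟪f i, y⟫_ℂ := sum_inner _ _ _

theorem isumr {ι : Type} (S : Finset ι) (f : ι → L2Pow Q r) (x : L2Pow Q r) :
    ⟪x, ∑ i ∈ S, f i⟫_ℂ = ∑ i ∈ S, ⟪x, f i⟫_ℂ := inner_sum _ _ _

theorem iconj (x y : L2Pow Q r) : starRingEnd ℂ ⟪x, y⟫_ℂ = ⟪y, x⟫_ℂ := inner_conj_symm _ _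

end inner

end Pool.Agent.N504.TL
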