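import Pool.Agent.N504.TL.Par

/-!
# The adjoint of the boundary operator
-/

set_option autoImplicit false

open scoped InnerProductSpace

noncomputable section

namespace Pool.Agent.N504.TL

open Pool.Agent.W907.SG Pool.Agent.Helper993.FK Pool.Agent.W461.SGN

variable {V : Type} [Fintype V] [LinearOrder V] (G : SimpleGraph V)

open Classical in
/-- the matrix of the adjoint of the boundary operator (on the chains) -/
def sM : Matrix (Fin (Fintype.card (Finset V))) (Fin (Fintype.card (Finset V))) (MonoidAlgebra ℚ (W G)) :=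
  Matrix.of fun j i => if G.IsClique (sx V i : Set V) then ∑ t ∈ sx V i,
    if sx V j = (sx V i).erase t then
      (MonoidAlgebra.single 1 ((sg t ((sx V i).erase t) : ℚ) / 2) +
        MonoidAlgebra.single ((cox G).simple t) (-((sg t ((sx V i).erase t) : ℚ) / 2))) else 0 else 0

variable {G}

theorem simple_inv (t : V) : ((cox G).simple t)⁻¹ = (cox G).simple t :=
  inv_eq_of_mul_eq_one_left (simple_mul_self G t)

theorem coord_sM (y : L2Pow (W G) (Fintype.card (Finset V))) (i : Fin (Fintype.card (Finset V))) (w : W G)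
    (hi : G.IsClique (sx V i : Set V)) :
    coord (rMul (sM G) y) i w = ∑ t ∈ sx V i, (sg t ((sx V i).erase t) : ℂ) / 2 *
      (coord y ((sx V).symm ((sx V i).erase t)) w -
        coord y ((sx V).symm ((sx V i).erase t)) (w * (cox G).simple t)) := by
  classical
  rw [coord_rMul]
  have h1 : ∀ j, act (sM G j i) y j w = ∑ t ∈ sx V i, act (if sx V j = (sx V i).erase t then
      (MonoidAlgebra.single 1 ((sg t ((sx V i).erase t) : ℚ) / 2) +
        MonoidAlgebra.single ((cox G).simple t) (-((sg t ((sx V i).erase t) : ℚ) / 2))) else 0) y j w := by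
    intro j
    unfold sM
    rw [Matrix.of_apply, if_pos hi, act_sum]
  rw [Finset.sum_congr rfl fun j _ => h1 j, Finset.sum_comm]
  refine Finset.sum_congr rfl fun t _ => ?_
  rw [Finset.sum_eq_single ((sx V).symm ((sx V i).erase t))]
  · rw [if_pos (by simp), act_add, act_single, act_single, simple_inv]
    push_cast
    rw [inv_one, mul_one]
    ring
  · intro j _ hj
    rw [if_neg, act_zero]
    intro h
    exact hj (by rw [← h, Equiv.symm_apply_apply])
  · simp

theorem coord_sM_not (y : L2Pow (W G) (Fintype.card (Finset V))) (i : Fin (Fintype.card (Finset V))) (w : W G)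
    (hi : ¬ G.IsClique (sx V i : Set V)) : coord (rMul (sM G) y) i w = 0 := by
  classical
  rw [coord_rMul]
  refine Finset.sum_eq_zero fun j _ => ?_
  unfold sM
  rw [Matrix.of_apply, if_neg hi, act_zero]

theorem sM_mem (y : L2Pow (W G) (Fintype.card (Finset V))) (hy : y ∈ LC G) : rMul (sM G) y ∈ LC G := by
  refine ⟨fun i w hi => coord_sM_not y i w hi, fun i w s hs => ?_⟩
  by_cases hi : G.IsClique (sx V i : Set V)
  · rw [coord_sM y i _ hi, coord_sM y i _ hi, ← Finset.sum_neg_distrib]
    refine Finset.sum_congr rfl fun t ht => ?_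
    by_cases hts : t = s
    · subst hts
      rw [mul_assoc, simple_mul_self, mul_one]
      ring
    · have hadj : G.Adj t s := hi (by exact_mod_cast ht) (by exact_mod_cast hs) hts
      have h1 := hy.2 ((sx V).symm ((sx V i).erase t)) w s (by
        rw [Equiv.apply_symm_apply]; exact Finset.mem_erase.mpr ⟨Ne.symm hts, hs⟩)
      have h2 := hy.2 ((sx V).symm ((sx V i).erase t)) (w * (cox G).simple t) s (by
        rw [Equiv.apply_symm_apply]; exact Finset.mem_erase.mpr ⟨Ne.symm hts, hs⟩)
      have h3 : w * (cox G).simple s * (cox G).simple t = w * (cox G).simple t * (cox G).simple s := by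
        rw [mul_assoc, mul_assoc, simple_comm G t s hadj]
      rw [h3, h1, h2]
      ring
  · rw [coord_sM_not y i _ hi, coord_sM_not y i _ hi, neg_zero]

variable (G) in
/-- the adjoint of the boundary operator -/
def sL : LC G →L[ℂ] LC G :=
  ((rMul (sM G)).comp (LC G).subtypeL).codRestrict (LC G) fun x => sM_mem x.1 x.2

theorem dM_entry (i j : Fin (Fintype.card (Finset V))) (v : V) (hv : v ∉ sx V j) (h : sx V i = insert v (sx V j)) :
    dM G i j = MonoidAlgebra.single 1 ((sg v (sx V j) : ℤ) : ℚ) := by
  unfold dM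
  rw [Matrix.of_apply, Finset.sum_eq_single v]
  · rw [if_pos h]
  · intro u hu huv
    rw [if_neg]
    intro h2
    rw [h] at h2
    have : u ∈ insert v (sx V j) := by rw [h2]; exact Finset.mem_insert_self _ _
    rw [Finset.mem_insert] at this
    rcases this with h3 | h3
    · exact huv h3
    · exact (Finset.mem_compl.mp hu) h3
  · intro h2
    exact absurd (Finset.mem_compl.mpr hv) h2

theorem sM_entry (i j : Fin (Fintype.card (Finset V))) (v : V) (hv : v ∉ sx V j) (h : sx V i = insert v (sx V j))
    (hi : G.IsClique (sx V i : Set V)) :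
    sM G j i = MonoidAlgebra.single 1 ((sg v (sx V j) : ℚ) / 2) +
        MonoidAlgebra.single ((cox G).simple v) (-((sg v (sx V j) : ℚ) / 2)) := by
  classical
  have he : (sx V i).erase v = sx V j := by rw [h, Finset.erase_insert hv]
  unfold sM
  rw [Matrix.of_apply, if_pos hi, Finset.sum_eq_single v]
  · rw [if_pos he.symm, he]
  · intro u hu huv
    rw [if_neg]
    intro h2
    rw [h] at hu h2
    have : u ∈ sx V j := (Finset.mem_insert.mp hu).resolve_left huv
    rw [h2] at this
    exact absurd rfl (Finset.ne_of_mem_erase this)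
  · intro h2
    exact absurd (by rw [h]; exact Finset.mem_insert_self _ _) h2

theorem shift_anti (i j : Fin (Fintype.card (Finset V))) (t : V) (ht : t ∈ sx V i)
    {x : L2Pow (W G) (Fintype.card (Finset V))} (hx : x ∈ LC G) :
    (shift i j ((cox G).simple t) x : L2Pow (W G) (Fintype.card (Finset V))) = - shift i j 1 x := by
  apply coord_ext
  intro k g
  rw [coord_neg, coord_shift, coord_shift]
  by_cases hk : k = j
  · rw [if_pos hk, if_pos hk, simple_inv, hx.2 i g t ht, inv_one, mul_one]
  · rw [if_neg hk, if_neg hk, neg_zero]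

theorem inner_entry (i j : Fin (Fintype.card (Finset V))) {x y : L2Pow (W G) (Fintype.card (Finset V))}
    (hx : x ∈ LC G) : ⟪sc i j (dM G i j) x, y⟫_ℂ = ⟪x, sc j i (sM G j i) y⟫_ℂ := by
  classical
  by_cases hex : ∃ v, v ∉ sx V j ∧ sx V i = insert v (sx V j)
  · obtain ⟨v, hv, h⟩ := hex
    have hvi : v ∈ sx V i := by rw [h]; exact Finset.mem_insert_self _ _
    rw [dM_entry i j v hv h, sc_single]
    by_cases hi : G.IsClique (sx V i : Set V)
    · rw [sM_entry i j v hv h hi, sc_add, sc_single, sc_single]
      have h1 := inner_shift i j 1 x y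
      have h2 := inner_shift i j ((cox G).simple v) x y
      rw [shift_anti i j v hvi hx, simple_inv] at h2
      rw [inv_one] at h1
      rw [inegl] at h2
      rw [add_apply, smul_apply, smul_apply, smul_apply, iaddr, ismull, ismulr, ismulr]
      rw [← h1, ← h2]
      push_cast
      rw [map_intCast]
      ring
    · have h0 : (shift i j 1 x : L2Pow (W G) (Fintype.card (Finset V))) = 0 := by
        apply coord_ext
        intro k g
        rw [coord_zero, coord_shift]
        by_cases hk : k = j
        · rw [if_pos hk, hx.1 i _ hi]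
        · rw [if_neg hk]
      have h3 : sM G j i = 0 := by
        unfold sM
        rw [Matrix.of_apply, if_neg hi]
      rw [h3, sc_zero, smul_apply, h0, smul_zero, zero_apply, izerol, izeror]
  · have h1 : dM G i j = 0 := by
      unfold dM
      rw [Matrix.of_apply]
      refine Finset.sum_eq_zero fun v hv => ?_
      rw [if_neg fun h => hex ⟨v, Finset.mem_compl.mp hv, h⟩]
    have h2 : sM G j i = 0 := by
      unfold sM
      rw [Matrix.of_apply]
      by_cases hi : G.IsClique (sx V i : Set V)
      · rw [if_pos hi]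
        refine Finset.sum_eq_zero fun t ht => ?_
        rw [if_neg fun h => hex ⟨t, by rw [h]; exact Finset.notMem_erase _ _, by rw [h, Finset.insert_erase ht]⟩]
      · rw [if_neg hi]
    rw [h1, h2, sc_zero, sc_zero, zero_apply, zero_apply, izerol, izeror]

theorem inner_dM {x y : L2Pow (W G) (Fintype.card (Finset V))} (hx : x ∈ LC G) :
    ⟪rMul (dM G) x, y⟫_ℂ = ⟪x, rMul (sM G) y⟫_ℂ := by
  have e1 : rMul (dM G) x = ∑ i, ∑ j, sc i j (dM G i j) x := by
    rw [rMul_eq_sc, sum_apply]
    exact Finset.sum_congr rfl fun i _ => sum_apply _ _ _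
  have e2 : rMul (sM G) y = ∑ i, ∑ j, sc i j (sM G i j) y := by
    rw [rMul_eq_sc, sum_apply]
    exact Finset.sum_congr rfl fun i _ => sum_apply _ _ _
  rw [e1, e2, isuml, isumr]
  have e3 : ∀ i, ⟪∑ j, sc i j (dM G i j) x, y⟫_ℂ = ∑ j, ⟪sc i j (dM G i j) x, y⟫_ℂ := fun i => isuml _ _ _
  have e4 : ∀ i, ⟪x, ∑ j, sc i j (sM G i j) y⟫_ℂ = ∑ j, ⟪x, sc i j (sM G i j) y⟫_ℂ := fun i => isumr _ _ _
  rw [Finset.sum_congr rfl fun i _ => e3 i, Finset.sum_congr rfl fun i _ => e4 i, Finset.sum_comm]
  exact Finset.sum_congr rfl fun j _ => Finset.sum_congr rfl fun i _ => inner_entry i j hx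

theorem adj_dL : ContinuousLinearMap.adjoint (dL G) = sL G := by
  symm
  rw [ContinuousLinearMap.eq_adjoint_iff]
  intro y x
  have h := inner_dM (G := G) (x := x.1) (y := y.1) x.2
  have h2 := congrArg (starRingEnd ℂ) h
  rw [iconj, iconj] at h2
  exact h2.symm

end Pool.Agent.N504.TL
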