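import Pool.Agent.N504.TL.Adj
import Pool.Agent.N504.TG.PGrp

/-!
# Laplacians on functions, the product formula
-/

set_option autoImplicit false

open scoped InnerProductSpace

noncomputable section

namespace Pool.Agent.N504.TL

open Pool.Agent.W907.SG Pool.Agent.Helper993.FK Pool.Agent.W461.SGN Pool.Agent.N504.TG
open Pool.Agent.TH652.Join

section
variable {V : Type} [Fintype V] [LinearOrder V] (G : SimpleGraph V)

/-- the boundary operator on functions -/
def dF : (W G → Finset V → ℂ) →ₗ[ℂ] (W G → Finset V → ℂ) where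
  toFun c w T := ∑ v ∈ Tᶜ, (sg v T : ℂ) * c w (insert v T)
  map_add' c d := by
    funext w T
    simp [mul_add, Finset.sum_add_distrib]
  map_smul' a c := by
    funext w T
    simp only [Pi.smul_apply, RingHom.id_apply, smul_eq_mul, Finset.mul_sum]
    refine Finset.sum_congr rfl fun v _ => ?_
    ring

open Classical in
/-- the coboundary operator on functions -/
def dS : (W G → Finset V → ℂ) →ₗ[ℂ] (W G → Finset V → ℂ) where
  toFun c w T := if G.IsClique (T : Set V) then
    ∑ t ∈ T, (sg t (T.erase t) : ℂ) / 2 * (c w (T.erase t) - c (w * (cox G).simple t) (T.erase t)) else 0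
  map_add' c d := by
    funext w T
    simp only [Pi.add_apply]
    by_cases h : G.IsClique (T : Set V)
    · simp only [if_pos h]
      rw [← Finset.sum_add_distrib]
      refine Finset.sum_congr rfl fun v _ => ?_
      ring
    · simp only [if_neg h, add_zero]
  map_smul' a c := by
    funext w T
    simp only [Pi.smul_apply, smul_eq_mul, RingHom.id_apply]
    by_cases h : G.IsClique (T : Set V)
    · simp only [if_pos h]
      rw [Finset.mul_sum]
      refine Finset.sum_congr rfl fun v _ => ?_
      ring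
    · simp only [if_neg h, mul_zero]

variable {G}

theorem dF_apply (c : W G → Finset V → ℂ) (w : W G) (T : Finset V) :
    dF G c w T = ∑ v ∈ Tᶜ, (sg v T : ℂ) * c w (insert v T) := rfl

theorem dS_apply (c : W G → Finset V → ℂ) (w : W G) {T : Finset V} (h : G.IsClique (T : Set V)) :
    dS G c w T = ∑ t ∈ T, (sg t (T.erase t) : ℂ) / 2 *
      (c w (T.erase t) - c (w * (cox G).simple t) (T.erase t)) := by
  classical
  exact if_pos h

theorem dS_not (c : W G → Finset V → ℂ) (w : W G) {T : Finset V} (h : ¬ G.IsClique (T : Set V)) :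
    dS G c w T = 0 := by
  classical
  exact if_neg h

variable (G) in
/-- the Laplacian on functions -/
def lF : (W G → Finset V → ℂ) →ₗ[ℂ] (W G → Finset V → ℂ) := (2 : ℂ) • (dS G ∘ₗ dF G + dF G ∘ₗ dS G)

theorem lF_apply (c : W G → Finset V → ℂ) : lF G c = (2 : ℂ) • (dS G (dF G c) + dF G (dS G c)) := rfl

/-- supported on the cliques -/
def CS (c : W G → Finset V → ℂ) : Prop := ∀ w (T : Finset V), ¬ G.IsClique (T : Set V) → c w T = 0

theorem CS.dF {c : W G → Finset V → ℂ} (h : CS c) : CS (dF G c) := by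
  intro w T hT
  rw [dF_apply]
  refine Finset.sum_eq_zero fun v _ => ?_
  rw [h w _ fun h2 => hT (h2.subset (by simp)), mul_zero]

theorem CS.dS {c : W G → Finset V → ℂ} : CS (dS G c) := fun w _ hT => dS_not c w hT

theorem CS.lF {c : W G → Finset V → ℂ} (h : CS c) : CS (lF G c) := by
  intro w T hT
  rw [lF_apply]
  show (2 : ℂ) * (TL.dS G (TL.dF G c) w T + TL.dF G (TL.dS G c) w T) = 0
  rw [dS_not _ w hT, (CS.dS (c := c)).dF w T hT, add_zero, mul_zero]

/-- the sign of the degree -/
def ep (c : W G → Finset V → ℂ) : W G → Finset V → ℂ := fun w T => (-1) ^ T.card * c w T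

theorem ep_ep (c : W G → Finset V → ℂ) : ep (ep c) = c := by
  funext w T
  unfold ep
  rw [← mul_assoc, ← mul_pow]
  norm_num

theorem ep_dF (c : W G → Finset V → ℂ) : dF G (ep c) = - ep (dF G c) := by
  funext w T
  show ∑ v ∈ Tᶜ, (sg v T : ℂ) * ((-1) ^ (insert v T).card * c w (insert v T)) =
    -((-1) ^ T.card * ∑ v ∈ Tᶜ, (sg v T : ℂ) * c w (insert v T))
  rw [Finset.mul_sum, ← Finset.sum_neg_distrib]
  refine Finset.sum_congr rfl fun v hv => ?_
  rw [Finset.card_insert_of_notMem (Finset.mem_compl.mp hv), pow_succ]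
  ring

theorem ep_dS (c : W G → Finset V → ℂ) : dS G (ep c) = - ep (dS G c) := by
  funext w T
  by_cases h : G.IsClique (T : Set V)
  · show dS G (ep c) w T = -((-1) ^ T.card * dS G c w T)
    rw [dS_apply _ w h, dS_apply _ w h, Finset.mul_sum, ← Finset.sum_neg_distrib]
    refine Finset.sum_congr rfl fun t ht => ?_
    unfold ep
    have h1 : T.card = (T.erase t).card + 1 := (Finset.card_erase_add_one ht).symm
    rw [h1, pow_succ]
    ring
  · show dS G (ep c) w T = -((-1) ^ T.card * dS G c w T)
    rw [dS_not _ w h, dS_not _ w h]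
    ring

theorem CS.ep {c : W G → Finset V → ℂ} (h : CS c) : CS (ep c) := by
  intro w T hT
  unfold TL.ep
  rw [h w T hT, mul_zero]

end

/-! ### products -/

section
variable {V U : Type} {G : SimpleGraph V} {H : SimpleGraph U}

/-- the product of functions -/
def tn (a : W G → Finset V → ℂ) (b : W H → Finset U → ℂ) : W (join G H) → Finset (V ⊕ U) → ℂ :=
  fun w R => a (pl G H w) R.toLeft * b (pr G H w) R.toRight

theorem tn_apply (a : W G → Finset V → ℂ) (b : W H → Finset U → ℂ) (w : W (join G H)) (T : Finset V)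
    (S : Finset U) : tn a b w (T.disjSum S) = a (pl G H w) T * b (pr G H w) S := by
  unfold tn
  rw [Finset.toLeft_disjSum, Finset.toRight_disjSum]

theorem tn_ext {f g : W (join G H) → Finset (V ⊕ U) → ℂ}
    (h : ∀ w (T : Finset V) (S : Finset U), f w (T.disjSum S) = g w (T.disjSum S)) : f = g := by
  funext w R
  have h1 := h w R.toLeft R.toRight
  rwa [Finset.toLeft_disjSum_toRight] at h1

theorem tn_add_left (a a' : W G → Finset V → ℂ) (b : W H → Finset U → ℂ) : tn (a + a') b = tn a b + tn a' b := by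
  funext w R
  show (a _ _ + a' _ _) * b _ _ = a _ _ * b _ _ + a' _ _ * b _ _
  ring

theorem tn_add_right (a : W G → Finset V → ℂ) (b b' : W H → Finset U → ℂ) : tn a (b + b') = tn a b + tn a b' := by
  funext w R
  show a _ _ * (b _ _ + b' _ _) = a _ _ * b _ _ + a _ _ * b' _ _
  ring

theorem tn_neg_left (a : W G → Finset V → ℂ) (b : W H → Finset U → ℂ) : tn (-a) b = - tn a b := by
  funext w R
  show (-a _ _) * b _ _ = -(a _ _ * b _ _)
  ring

theorem tn_smul_left (z : ℂ) (a : W G → Finset V → ℂ) (b : W H → Finset U → ℂ) : tn (z • a) b = z • tn a b := by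
  funext w R
  show (z * a _ _) * b _ _ = z * (a _ _ * b _ _)
  ring

theorem tn_smul_right (z : ℂ) (a : W G → Finset V → ℂ) (b : W H → Finset U → ℂ) : tn a (z • b) = z • tn a b := by
  funext w R
  show a _ _ * (z * b _ _) = z * (a _ _ * b _ _)
  ring

variable [Fintype V] [LinearOrder V] [Fintype U] [LinearOrder U]

attribute [local instance] ordSum

theorem dF_tn (a : W G → Finset V → ℂ) (b : W H → Finset U → ℂ) :
    dF (join G H) (tn a b) = tn (dF G a) b + tn (ep a) (dF H b) := by
  refine tn_ext fun w T S => ?_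
  rw [dF_apply, sum_compl, Pi.add_apply, Pi.add_apply, tn_apply, tn_apply, dF_apply, dF_apply, Finset.sum_mul,
    Finset.mul_sum]
  congr 1
  · refine Finset.sum_congr rfl fun v _ => ?_
    rw [sg_inl, insert_inl, tn_apply, mul_assoc]
  · refine Finset.sum_congr rfl fun u _ => ?_
    rw [sg_inr, insert_inr, tn_apply]
    unfold ep
    push_cast
    ring

theorem dS_tn {a : W G → Finset V → ℂ} {b : W H → Finset U → ℂ} (ha : CS a) (hb : CS b) :
    dS (join G H) (tn a b) = tn (dS G a) b + tn (ep a) (dS H b) := by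
  refine tn_ext fun w T S => ?_
  rw [Pi.add_apply, Pi.add_apply, tn_apply, tn_apply]
  by_cases hT : G.IsClique (T : Set V)
  · by_cases hS : H.IsClique (S : Set U)
    · rw [dS_apply _ w ((clique_join G H T S).2 ⟨hT, hS⟩), Finset.sum_disjSum, dS_apply _ _ hT, dS_apply _ _ hS,
        Finset.sum_mul, Finset.mul_sum]
      congr 1
      · refine Finset.sum_congr rfl fun v _ => ?_
        rw [erase_inl, sg_inl, tn_apply, tn_apply, map_mul, map_mul, pl_inl, pr_inl, mul_one]
        ring
      · refine Finset.sum_congr rfl fun u _ => ?_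
        rw [erase_inr, sg_inr, tn_apply, tn_apply, map_mul, map_mul, pl_inr, pr_inr, mul_one]
        unfold ep
        push_cast
        ring
    · rw [dS_not _ w fun h => hS ((clique_join G H T S).1 h).2, dS_not _ _ hS, hb _ S hS]
      ring
  · rw [dS_not _ w fun h => hT ((clique_join G H T S).1 h).1, dS_not _ _ hT]
    unfold ep
    rw [ha _ T hT]
    ring

theorem tn_neg_right (a : W G → Finset V → ℂ) (b : W H → Finset U → ℂ) : tn a (-b) = - tn a b := by
  funext w R
  show a _ _ * (-b _ _) = -(a _ _ * b _ _)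
  ring

theorem lF_tn {a : W G → Finset V → ℂ} {b : W H → Finset U → ℂ} (ha : CS a) (hb : CS b) :
    lF (join G H) (tn a b) = tn (lF G a) b + tn a (lF H b) := by
  rw [lF_apply, lF_apply, lF_apply, dF_tn, dS_tn ha hb, map_add, map_add, dS_tn ha.dF hb, dS_tn ha.ep hb.dF,
    dF_tn, dF_tn, ep_dF, ep_dS, ep_ep, tn_neg_left, tn_neg_left, tn_smul_left, tn_smul_right, ← smul_add,
    tn_add_left, tn_add_right]
  congr 1
  abel

/-- the values of the powers of the Laplacian of a product -/
theorem lF_pow_tn (w : W (join G H)) (R : Finset (V ⊕ U)) (m : ℕ) :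
    ∀ (a : W G → Finset V → ℂ) (b : W H → Finset U → ℂ), CS a → CS b →
    ((lF (join G H)) ^ m) (tn a b) w R = ∑ ij ∈ Finset.HasAntidiagonal.antidiagonal m, (m.choose ij.1 : ℂ) *
      (((lF G) ^ ij.1) a (pl G H w) R.toLeft * ((lF H) ^ ij.2) b (pr G H w) R.toRight) := by
  induction m with
  | zero =>
    intro a b _ _
    simp [tn]
  | succ m ih =>
    intro a b ha hb
    have h1 : ((lF (join G H)) ^ (m + 1)) (tn a b) = ((lF (join G H)) ^ m) (tn (lF G a) b) +
        ((lF (join G H)) ^ m) (tn a (lF H b)) := by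
      rw [pow_succ, Module.End.mul_apply, lF_tn ha hb, map_add]
    rw [h1, Pi.add_apply, Pi.add_apply, ih _ _ ha.lF hb, ih _ _ ha hb.lF]
    have h2 := Finset.sum_antidiagonal_choose_succ_nsmul (M := ℂ)
      (fun i j => ((lF G) ^ i) a (pl G H w) R.toLeft * ((lF H) ^ j) b (pr G H w) R.toRight) m
    simp only [nsmul_eq_mul] at h2
    rw [h2, add_comm]
    congr 1
    refine Finset.sum_congr rfl fun ij hij => ?_
    rw [pow_succ, Module.End.mul_apply]
    have h3 : m.choose ij.1 = m.choose ij.2 := by
      have h4 := Finset.HasAntidiagonal.mem_antidiagonal.mp hij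
      rw [← h4, Nat.choose_symm_add]
    rw [h3]

end

end Pool.Agent.N504.TL
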