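import Pool.Agent.Helper993.Luck

/-!
# Moments, traces and integrals
-/

set_option autoImplicit false

open scoped InnerProductSpace Topology CompactlySupported InnerProduct

noncomputable section

namespace Pool.Agent.N504.TL

open Pool.Agent.Helper993.FK MeasureTheory Polynomial

section tv
variable {H : Type} [NormedAddCommGroup H] [InnerProductSpace ℂ H] [CompleteSpace H] {r : ℕ}

theorem tv_add (e : Fin r → H) (T : H →L[ℂ] H) {f g : ℝ → ℝ} (hf : Continuous f) (hg : Continuous g) :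
    traceVal e T (fun x => f x + g x) = traceVal e T f + traceVal e T g := by
  unfold traceVal
  rw [← Finset.sum_add_distrib]
  apply Finset.sum_congr rfl
  intro i _
  rw [cfc_add (R := ℝ) (a := T) (f := f) (g := g) (by fun_prop) (by fun_prop)]
  simp

theorem tv_monomial (e : Fin r → H) (T : H →L[ℂ] H) (hT : 0 ≤ T) (a : ℝ) (k : ℕ) :
    traceVal e T (fun x => a * x ^ k) = a * ∑ i, (⟪e i, (T ^ k) (e i)⟫_ℂ).re := by
  have hsa : IsSelfAdjoint T := IsSelfAdjoint.of_nonneg hT
  unfold traceVal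
  rw [Finset.mul_sum]
  apply Finset.sum_congr rfl
  intro i _
  have h1 : cfc (fun x : ℝ => a * x ^ k) T = a • T ^ k := by
    rw [cfc_const_mul (R := ℝ) a (fun x => x ^ k) T (by fun_prop), cfc_pow_id (R := ℝ) T k hsa]
  rw [h1]
  rw [smul_apply, inner_smul_right_eq_smul, Complex.real_smul, Complex.re_ofReal_mul]

/-- a linear functional which is continuous and vanishes on the monomials vanishes -/
theorem weier (L : (ℝ → ℝ) → ℝ) (hadd : ∀ f g : ℝ → ℝ, Continuous f → Continuous g →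
    L (fun x => f x + g x) = L f + L g) (hmon : ∀ (a : ℝ) (k : ℕ), L (fun x => a * x ^ k) = 0) {C K : ℝ}
    (hC : ∀ f g : ℝ → ℝ, Continuous f → Continuous g → ∀ ε : ℝ, 0 ≤ ε →
      (∀ x ∈ Set.Icc 0 K, |f x - g x| ≤ ε) → |L f - L g| ≤ C * ε) {h : ℝ → ℝ} (hh : Continuous h) : L h = 0 := by
  have hpoly : ∀ p : ℝ[X], L (fun x => p.eval x) = 0 := by
    intro p
    induction p using Polynomial.induction_on' with
    | add p q hp hq =>
      have e : (fun x => (p + q).eval x) = fun x => p.eval x + q.eval x := by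
        funext x; exact Polynomial.eval_add
      rw [e, hadd _ _ p.continuous q.continuous, hp, hq, add_zero]
    | monomial k a =>
      have e : (fun x => (Polynomial.monomial k a).eval x) = fun x => a * x ^ k := by
        funext x; exact Polynomial.eval_monomial
      rw [e, hmon]
  have key : ∀ ε : ℝ, 0 < ε → |L h| ≤ |C| * ε := by
    intro ε hε
    obtain ⟨p, hp⟩ := exists_polynomial_near_of_continuousOn 0 K h hh.continuousOn ε hε
    have h1 := hC h (fun x => p.eval x) hh p.continuous ε hε.le (fun x hx => by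
      rw [abs_sub_comm]; exact (hp x hx).le)
    rw [hpoly, sub_zero] at h1
    exact h1.trans (mul_le_mul_of_nonneg_right (le_abs_self C) hε.le)
  have h0 : |L h| ≤ 0 := by
    by_contra hcon
    push Not at hcon
    have h1 := key (|L h| / (2 * (|C| + 1))) (by positivity)
    have h2 : |C| * (|L h| / (2 * (|C| + 1))) < |L h| := by
      rw [mul_div_assoc', div_lt_iff₀ (by positivity)]
      nlinarith [abs_nonneg C]
    linarith
  exact abs_nonpos_iff.mp h0

/-- the trace functional with weights -/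
def wv (c : Fin r → ℝ) (e : Fin r → H) (T : H →L[ℂ] H) (h : ℝ → ℝ) : ℝ :=
  ∑ i, c i * (⟪e i, cfc h T (e i)⟫_ℂ).re

theorem wv_add (c : Fin r → ℝ) (e : Fin r → H) (T : H →L[ℂ] H) {f g : ℝ → ℝ} (hf : Continuous f)
    (hg : Continuous g) : wv c e T (fun x => f x + g x) = wv c e T f + wv c e T g := by
  unfold wv
  rw [← Finset.sum_add_distrib]
  apply Finset.sum_congr rfl
  intro i _
  rw [cfc_add (R := ℝ) (a := T) (f := f) (g := g) (by fun_prop) (by fun_prop)]
  simp [mul_add]

theorem wv_monomial (c : Fin r → ℝ) (e : Fin r → H) (T : H →L[ℂ] H) (hT : 0 ≤ T) (a : ℝ) (k : ℕ) :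
    wv c e T (fun x => a * x ^ k) = a * ∑ i, c i * (⟪e i, (T ^ k) (e i)⟫_ℂ).re := by
  have hsa : IsSelfAdjoint T := IsSelfAdjoint.of_nonneg hT
  unfold wv
  rw [Finset.mul_sum]
  apply Finset.sum_congr rfl
  intro i _
  have h1 : cfc (fun x : ℝ => a * x ^ k) T = a • T ^ k := by
    rw [cfc_const_mul (R := ℝ) a (fun x => x ^ k) T (by fun_prop), cfc_pow_id (R := ℝ) T k hsa]
  rw [h1]
  rw [smul_apply, inner_smul_right_eq_smul, Complex.real_smul, Complex.re_ofReal_mul]
  ring

theorem one_near (e : H) (he : ‖e‖ ≤ 1) (T : H →L[ℂ] H) (hT : 0 ≤ T) {K : ℝ}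
    (hK : ‖T‖ ≤ K) {f g : ℝ → ℝ} (hf : Continuous f) (hg : Continuous g) {ε : ℝ} (hε : 0 ≤ ε)
    (h : ∀ x ∈ Set.Icc 0 K, |f x - g x| ≤ ε) : |(⟪e, cfc f T e⟫_ℂ).re - (⟪e, cfc g T e⟫_ℂ).re| ≤ ε := by
  have h1 := traceVal_near (fun _ : Fin 1 => e) (fun _ => he) T hT hK hf hg hε h
  unfold traceVal at h1
  simpa using h1

theorem wv_near (c : Fin r → ℝ) (e : Fin r → H) (he : ∀ i, ‖e i‖ ≤ 1) (T : H →L[ℂ] H) (hT : 0 ≤ T) {K : ℝ}
    (hK : ‖T‖ ≤ K) {f g : ℝ → ℝ} (hf : Continuous f) (hg : Continuous g) {ε : ℝ} (hε : 0 ≤ ε)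
    (h : ∀ x ∈ Set.Icc 0 K, |f x - g x| ≤ ε) : |wv c e T f - wv c e T g| ≤ (∑ i, |c i|) * ε := by
  unfold wv
  rw [← Finset.sum_sub_distrib, Finset.sum_mul]
  refine (Finset.abs_sum_le_sum_abs _ _).trans (Finset.sum_le_sum fun i _ => ?_)
  rw [← mul_sub, abs_mul]
  exact mul_le_mul_of_nonneg_left (one_near (e i) (he i) T hT hK hf hg hε h) (abs_nonneg _)

/-- the diagonal coefficient of a function of an operator -/
def cv (e : H) (T : H →L[ℂ] H) (h : ℝ → ℝ) : ℝ := (⟪e, cfc h T e⟫_ℂ).re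

theorem cv_zero (T : H →L[ℂ] H) (h : ℝ → ℝ) : cv 0 T h = 0 := by
  unfold cv
  rw [inner_zero_left, Complex.zero_re]

theorem cv_nonneg (e : H) (T : H →L[ℂ] H) (h : ℝ → ℝ) (hh : ∀ x, 0 ≤ h x) : 0 ≤ cv e T h := by
  have h1 : (0 : H →L[ℂ] H) ≤ cfc h T := cfc_nonneg (fun x _ => hh x)
  exact ((ContinuousLinearMap.nonneg_iff_isPositive _).mp h1).re_inner_nonneg_right _

theorem traceVal_cv (e : Fin r → H) (T : H →L[ℂ] H) (h : ℝ → ℝ) : traceVal e T h = ∑ i, cv (e i) T h := rfl

theorem wv_cv (c : Fin r → ℝ) (e : Fin r → H) (T : H →L[ℂ] H) (h : ℝ → ℝ) :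
    wv c e T h = ∑ i, c i * cv (e i) T h := rfl

theorem integral_cv (e : Fin r → H) (T : H →L[ℂ] H) (h : C_c(ℝ, ℝ)) :
    ∫ x, h x ∂(spectralMeasure e T) = ∑ i, cv (e i) T h := integral_spectralMeasure e T h

/-- the weighted trace functional is determined by the moments -/
theorem wv_eq (c : Fin r → ℝ) (e : Fin r → H) (he : ∀ i, ‖e i‖ ≤ 1) (T : H →L[ℂ] H) (hT : 0 ≤ T)
    (hm : ∀ k : ℕ, ∑ i, c i * (⟪e i, (T ^ (k + 1)) (e i)⟫_ℂ).re = 0) {h : ℝ → ℝ} (hh : Continuous h) :
    wv c e T h = h 0 * ∑ i, c i * (⟪e i, e i⟫_ℂ).re := by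
  have key := weier (fun h => wv c e T h - h 0 * ∑ i, c i * (⟪e i, e i⟫_ℂ).re)
    (fun f g hf hg => by
      show wv c e T (fun x => f x + g x) - (f 0 + g 0) * _ = _
      rw [wv_add c e T hf hg]; ring)
    (fun a k => by
      show wv c e T (fun x => a * x ^ k) - (a * 0 ^ k) * _ = 0
      rw [wv_monomial c e T hT]
      rcases k with _ | k
      · simp
      · rw [hm]; simp)
    (C := (∑ i, |c i|) + |∑ i, c i * (⟪e i, e i⟫_ℂ).re|) (K := ‖T‖)
    (fun f g hf hg ε hε hfg => by
      have h1 := wv_near c e he T hT le_rfl hf hg hε hfg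
      have h2 := hfg 0 ⟨le_rfl, norm_nonneg _⟩
      have h3 : |(f 0 - g 0) * ∑ i, c i * (⟪e i, e i⟫_ℂ).re| ≤ |∑ i, c i * (⟪e i, e i⟫_ℂ).re| * ε := by
        rw [abs_mul, mul_comm]
        exact mul_le_mul_of_nonneg_left h2 (abs_nonneg _)
      have h4 : (wv c e T f - f 0 * ∑ i, c i * (⟪e i, e i⟫_ℂ).re) -
          (wv c e T g - g 0 * ∑ i, c i * (⟪e i, e i⟫_ℂ).re) =
          (wv c e T f - wv c e T g) - (f 0 - g 0) * ∑ i, c i * (⟪e i, e i⟫_ℂ).re := by ring
      show |(wv c e T f - f 0 * ∑ i, c i * (⟪e i, e i⟫_ℂ).re) -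
          (wv c e T g - g 0 * ∑ i, c i * (⟪e i, e i⟫_ℂ).re)| ≤ _
      rw [h4, add_mul]
      exact (abs_sub _ _).trans (add_le_add h1 h3)) hh
  have key' : wv c e T h - h 0 * ∑ i, c i * (⟪e i, e i⟫_ℂ).re = 0 := key
  linarith

/-- for an injective operator the weighted number of vectors vanishes -/
theorem euler_zero (c : Fin r → ℝ) (hc : ∀ i, |c i| ≤ 1) (e : Fin r → H) (he : ∀ i, ‖e i‖ ≤ 1) (T : H →L[ℂ] H)
    (hT : 0 ≤ T) (hinj : ∀ v, T v = 0 → v = 0)
    (hm : ∀ k : ℕ, ∑ i, c i * (⟪e i, (T ^ (k + 1)) (e i)⟫_ℂ).re = 0) :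
    ∑ i, c i * (⟪e i, e i⟫_ℂ).re = 0 := by
  have h0 : |∑ i, c i * (⟪e i, e i⟫_ℂ).re| ≤ 0 := by
    refine le_of_forall_pos_le_add fun ε hε => ?_
    rw [zero_add]
    obtain ⟨δ, hδ, h1⟩ := bump_small e he T hT hinj hε
    have h2 := wv_eq c e he T hT hm (bump_continuous δ)
    rw [bump_zero, one_mul] at h2
    rw [← h2]
    refine le_trans ?_ h1
    unfold wv traceVal
    refine (Finset.abs_sum_le_sum_abs _ _).trans (Finset.sum_le_sum fun i _ => ?_)
    have h3 := cfc_bump_nonneg T δ (e i)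
    rw [abs_mul, abs_of_nonneg h3]
    calc |c i| * (⟪e i, cfc (bump δ) T (e i)⟫_ℂ).re ≤ 1 * (⟪e i, cfc (bump δ) T (e i)⟫_ℂ).re :=
          mul_le_mul_of_nonneg_right (hc i) h3
      _ = _ := one_mul _
  exact abs_nonpos_iff.mp h0

end tv

/-! ### the logarithm -/

/-- compactly supported approximations of the logarithm -/
def lgk (k : ℕ) : C_c(ℝ, ℝ) where
  toFun x := Real.log (max x (Real.exp (-k))) * max 0 (min 1 (x * Real.exp k - 1)) * cut k x
  continuous_toFun := by
    refine Continuous.mul (Continuous.mul ?_ (by fun_prop)) (cut_continuous k)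
    refine Continuous.log (by fun_prop) fun x => ?_
    exact (lt_of_lt_of_le (Real.exp_pos _) (le_max_right _ _)).ne'
  hasCompactSupport' := by
    apply HasCompactSupport.intro (isCompact_Icc (a := -((k : ℝ) + 1)) (b := (k : ℝ) + 1))
    intro x hx
    have : (k : ℝ) + 1 ≤ |x| := by
      by_contra hcon
      push Not at hcon
      rw [abs_lt] at hcon
      exact hx ⟨hcon.1.le, hcon.2.le⟩
    rw [cut_eq_zero this, mul_zero]

theorem lgk_apply (k : ℕ) (x : ℝ) :
    lgk k x = Real.log (max x (Real.exp (-k))) * max 0 (min 1 (x * Real.exp k - 1)) * cut k x := rfl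

theorem cut_le_one (k : ℕ) (x : ℝ) : cut k x ≤ 1 := by
  unfold cut
  exact max_le zero_le_one (min_le_left _ _)

theorem lgk_nonpos (k : ℕ) {x : ℝ} (hx : x ≤ 0) : lgk k x = 0 := by
  rw [lgk_apply]
  have : max 0 (min 1 (x * Real.exp k - 1)) = 0 := by
    rw [max_eq_left]
    refine (min_le_right _ _).trans ?_
    have := mul_nonpos_of_nonpos_of_nonneg hx (Real.exp_pos k).le
    linarith
  rw [this, mul_zero, zero_mul]

theorem abs_lgk_le (k : ℕ) {x : ℝ} (hx : 0 < x) : |lgk k x| ≤ |Real.log x| := by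
  rw [lgk_apply]
  rcases le_total (Real.exp (-k)) x with h | h
  · rw [max_eq_left h, abs_mul, abs_mul]
    have h1 : |max 0 (min 1 (x * Real.exp k - 1))| ≤ 1 := by
      rw [abs_of_nonneg (le_max_left _ _)]
      exact max_le zero_le_one (min_le_left _ _)
    have h2 : |cut k x| ≤ 1 := by
      rw [abs_of_nonneg (cut_nonneg k x)]
      exact cut_le_one k x
    calc |Real.log x| * |max 0 (min 1 (x * Real.exp k - 1))| * |cut k x| ≤ |Real.log x| * 1 * 1 := by
          gcongr
      _ = _ := by ring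
  · have : max 0 (min 1 (x * Real.exp k - 1)) = 0 := by
      rw [max_eq_left]
      refine (min_le_right _ _).trans ?_
      have h1 : x * Real.exp k ≤ Real.exp (-k) * Real.exp k := mul_le_mul_of_nonneg_right h (Real.exp_pos k).le
      rw [← Real.exp_add, neg_add_cancel, Real.exp_zero] at h1
      linarith
    rw [this, mul_zero, zero_mul, abs_zero]
    exact abs_nonneg _

theorem lgk_tendsto {x : ℝ} (hx : 0 < x) : Filter.Tendsto (fun k : ℕ => lgk k x) Filter.atTop (𝓝 (Real.log x)) := by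
  apply tendsto_const_nhds.congr'
  obtain ⟨m, hm⟩ := exists_nat_ge (max |x| (Real.log 2 - Real.log x))
  filter_upwards [Filter.eventually_ge_atTop m] with k hk
  have hk' : (m : ℝ) ≤ k := by exact_mod_cast hk
  have h1 : |x| ≤ k := (le_max_left _ _).trans (hm.trans hk')
  have h2 : Real.log 2 - Real.log x ≤ k := (le_max_right _ _).trans (hm.trans hk')
  have h3 : 2 ≤ x * Real.exp k := by
    have e1 : Real.exp (Real.log 2) = 2 := Real.exp_log (by norm_num)
    have e2 : x * Real.exp k = Real.exp (Real.log x + k) := by rw [Real.exp_add, Real.exp_log hx]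
    rw [e2, ← e1]
    exact Real.exp_le_exp.mpr (by linarith)
  have h4 : Real.exp (-k) ≤ x := by
    have h5 : Real.exp (-k) * Real.exp k = 1 := by rw [← Real.exp_add, neg_add_cancel, Real.exp_zero]
    by_contra hcon
    push Not at hcon
    have := mul_lt_mul_of_pos_right hcon (Real.exp_pos k)
    linarith
  rw [lgk_apply, max_eq_left h4, cut_eq_one h1, mul_one, min_eq_left (by linarith), max_eq_right zero_le_one,
    mul_one]

theorem lgk_integral (μ : Measure ℝ) (hI : IntegrableOn Real.log (Set.Ioi 0) μ) :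
    Filter.Tendsto (fun k : ℕ => ∫ x, lgk k x ∂μ) Filter.atTop (𝓝 (∫ x in Set.Ioi 0, Real.log x ∂μ)) := by
  have h1 : ∀ k : ℕ, ∫ x, lgk k x ∂μ = ∫ x in Set.Ioi 0, lgk k x ∂μ := by
    intro k
    refine (setIntegral_eq_integral_of_forall_compl_eq_zero fun x hx => ?_).symm
    exact lgk_nonpos k (not_lt.mp hx)
  simp_rw [h1]
  refine tendsto_integral_of_dominated_convergence (fun x => |Real.log x|) (fun k => ?_) hI.abs (fun k => ?_) ?_
  · exact (lgk k).continuous.aestronglyMeasurable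
  · refine (ae_restrict_iff' measurableSet_Ioi).mpr (Filter.Eventually.of_forall fun x hx => ?_)
    rw [Real.norm_eq_abs]
    exact abs_lgk_le k hx
  · refine (ae_restrict_iff' measurableSet_Ioi).mpr (Filter.Eventually.of_forall fun x hx => ?_)
    exact lgk_tendsto hx

/-- linear relations of integrals of continuous functions imply the same relations for the logarithm -/
theorem log_relation {ι : Type} (S : Finset ι) (c : ι → ℝ) (μ : ι → Measure ℝ)
    (h : ∀ f : C_c(ℝ, ℝ), ∑ i ∈ S, c i * ∫ x, f x ∂(μ i) = 0)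
    (hI : ∀ i ∈ S, IntegrableOn Real.log (Set.Ioi 0) (μ i)) :
    ∑ i ∈ S, c i * ∫ x in Set.Ioi 0, Real.log x ∂(μ i) = 0 := by
  have h1 : Filter.Tendsto (fun k : ℕ => ∑ i ∈ S, c i * ∫ x, lgk k x ∂(μ i)) Filter.atTop
      (𝓝 (∑ i ∈ S, c i * ∫ x in Set.Ioi 0, Real.log x ∂(μ i))) :=
    tendsto_finset_sum S fun i hi => (lgk_integral (μ i) (hI i hi)).const_mul (c i)
  have h2 : (fun k : ℕ => ∑ i ∈ S, c i * ∫ x, lgk k x ∂(μ i)) = fun _ => 0 := funext fun k => h (lgk k)
  rw [h2] at h1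
  exact tendsto_nhds_unique h1 tendsto_const_nhds

/-- the truncated logarithm under scaling -/
theorem gm_scale {M x c : ℝ} (hM : 0 ≤ M) (hc : 1 ≤ c) (hx : 0 ≤ x) : gm M x ≤ gm M (c * x) + Real.log c := by
  have hlc : 0 ≤ Real.log c := Real.log_nonneg hc
  have hc0 : 0 < c := by linarith
  unfold gm
  rcases le_total (Real.exp (-M)) x with h | h
  · have hx' : 0 < x := lt_of_lt_of_le (Real.exp_pos _) h
    have h2 : Real.exp (-M) ≤ c * x := h.trans (by nlinarith)
    rw [max_eq_left h, max_eq_left h2, Real.log_mul hc0.ne' hx'.ne']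
    have h3 : |Real.log x| ≤ |Real.log c + Real.log x| + Real.log c := by
      have e : Real.log x = (Real.log c + Real.log x) - Real.log c := by ring
      calc |Real.log x| = |(Real.log c + Real.log x) - Real.log c| := by rw [← e]
        _ ≤ |Real.log c + Real.log x| + |Real.log c| := abs_sub _ _
        _ = _ := by rw [abs_of_nonneg hlc]
    rcases le_total M |Real.log c + Real.log x| with h4 | h4
    · rw [min_eq_left h4]
      exact (min_le_left _ _).trans (by linarith)
    · rw [min_eq_right h4]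
      exact (min_le_right _ _).trans h3
  · rw [max_eq_right h, Real.log_exp]
    have h1 : min M |-M| = M := by rw [abs_neg, abs_of_nonneg hM, min_self]
    rw [h1]
    have h2 : max (c * x) (Real.exp (-M)) ≤ c * Real.exp (-M) :=
      max_le (mul_le_mul_of_nonneg_left h hc0.le) (by nlinarith [Real.exp_pos (-M)])
    have h3 : Real.log (max (c * x) (Real.exp (-M))) ≤ Real.log c - M := by
      refine (Real.log_le_log (lt_of_lt_of_le (Real.exp_pos _) (le_max_right _ _)) h2).trans (le_of_eq ?_)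
      rw [Real.log_mul hc0.ne' (Real.exp_pos _).ne', Real.log_exp]
      ring
    have h4 : M - Real.log c ≤ |Real.log (max (c * x) (Real.exp (-M)))| := by
      have := neg_le_abs (Real.log (max (c * x) (Real.exp (-M))))
      linarith
    rcases le_total M |Real.log (max (c * x) (Real.exp (-M)))| with h5 | h5
    · rw [min_eq_left h5]; linarith
    · rw [min_eq_right h5]; linarith

end Pool.Agent.N504.TL
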