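import Pool.Agent.N504.TL.Evx
import Pool.Agent.Helper993.Luck

/-!
# The trace property and the vanishing of the supertraces
-/

set_option autoImplicit false

open scoped InnerProductSpace

noncomputable section

namespace Pool.Agent.N504.TL

open Pool.Agent.W907.SG Pool.Agent.Helper993.FK Pool.Agent.W461.SGN Pool.Agent.N504.TG

section
variable {V : Type} [Fintype V] {G : SimpleGraph V}

/-- `y` is the translate of `x` by `g` -/
def Tr (g : W G) (x y : LC G) : Prop := ∀ j w, coord y.1 j w = coord x.1 j (g⁻¹ * w)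

/-- equivariant operators -/
def Eqv (B : LC G →L[ℂ] LC G) : Prop := ∀ g x y, Tr g x y → Tr g (B x) (B y)

theorem exists_tr (g : W G) (x : LC G) : ∃ y : LC G, Tr g x y := by
  obtain ⟨y, hy⟩ := exists_translate x.1 g⁻¹
  refine ⟨⟨y, fun j w hj => ?_, fun j w t ht => ?_⟩, fun j w => hy j w⟩
  · rw [hy, x.2.1 j _ hj]
  · rw [hy, hy, ← mul_assoc, x.2.2 j _ t ht]

theorem Eqv.comp {A B : LC G →L[ℂ] LC G} (hA : Eqv A) (hB : Eqv B) : Eqv (A ∘L B) :=
  fun g x y h => hA g _ _ (hB g x y h)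

theorem inner_tr (g : W G) (k : Fin (Fintype.card (Finset V))) (y z : LC G) (hy : Tr g (ev G k) y) :
    ⟪y, z⟫_ℂ = coord z.1 k g := by
  obtain ⟨z', hz'⟩ := exists_tr g⁻¹ z
  have h1 : ⟪ev G k, z'⟫_ℂ = coord z.1 k g := by
    rw [inner_ev, hz', inv_inv, mul_one]
  rw [← h1]
  show ⟪y.1, z.1⟫_ℂ = ⟪(ev G k).1, z'.1⟫_ℂ
  rw [inner_eq, inner_eq]
  let φ : Fin (Fintype.card (Finset V)) × W G ≃ Fin (Fintype.card (Finset V)) × W G :=
    Equiv.prodCongr (Equiv.refl _) (Equiv.mulLeft g)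
  rw [← φ.tsum_eq]
  refine tsum_congr fun p => ?_
  show starRingEnd ℂ (coord y.1 p.1 (g * p.2)) * coord z.1 p.1 (g * p.2) = _
  rw [hy, hz', inv_mul_cancel_left, inv_inv]

theorem summable_coord (x y : LC G) : Summable fun p : Fin (Fintype.card (Finset V)) × W G =>
    starRingEnd ℂ (coord x.1 p.1 p.2) * coord y.1 p.1 p.2 := by
  have h := lp.summable_inner (𝕜 := ℂ) (G := fun _ : Fin (Fintype.card (Finset V)) × W G => ℂ)
    (show lp (fun _ : Fin (Fintype.card (Finset V)) × W G => ℂ) 2 from x.1)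
    (show lp (fun _ : Fin (Fintype.card (Finset V)) × W G => ℂ) 2 from y.1)
  refine h.congr fun p => ?_
  rw [RCLike.inner_apply]
  exact mul_comm _ _

theorem tr_aux (A B : LC G →L[ℂ] LC G) (hB : Eqv B) (j : Fin (Fintype.card (Finset V))) :
    ⟪ev G j, B (A (ev G j))⟫_ℂ =
      ∑ k, ∑' w : W G, coord (B (ev G k)).1 j w⁻¹ * coord (A (ev G j)).1 k w := by
  have h1 : ∀ k w, starRingEnd ℂ (coord ((ContinuousLinearMap.adjoint B) (ev G j)).1 k w) =
      coord (B (ev G k)).1 j w⁻¹ := by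
    intro k w
    obtain ⟨y, hy⟩ := exists_tr w (ev G k)
    have e1 := inner_tr w k y ((ContinuousLinearMap.adjoint B) (ev G j)) hy
    rw [← e1, inner_conj_symm, ContinuousLinearMap.adjoint_inner_left, inner_ev]
    have e2 := hB w _ _ hy j 1
    rw [e2, mul_one]
  rw [← ContinuousLinearMap.adjoint_inner_left]
  show ⟪((ContinuousLinearMap.adjoint B) (ev G j)).1, (A (ev G j)).1⟫_ℂ = _
  rw [inner_eq, (summable_coord _ _).tsum_prod, tsum_fintype]
  refine Finset.sum_congr rfl fun k _ => tsum_congr fun w => ?_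
  rw [h1]

/-- the trace property -/
theorem trace_comm (A B : LC G →L[ℂ] LC G) (hA : Eqv A) (hB : Eqv B) :
    ∑ j, ⟪ev G j, B (A (ev G j))⟫_ℂ = ∑ j, ⟪ev G j, A (B (ev G j))⟫_ℂ := by
  rw [Finset.sum_congr rfl fun j _ => tr_aux A B hB j, Finset.sum_congr rfl fun j _ => tr_aux B A hA j,
    Finset.sum_comm]
  refine Finset.sum_congr rfl fun k _ => Finset.sum_congr rfl fun j _ => ?_
  rw [← (Equiv.inv (W G)).tsum_eq]
  refine tsum_congr fun w => ?_
  show coord (B (ev G k)).1 j (w⁻¹)⁻¹ * coord (A (ev G j)).1 k w⁻¹ = _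
  rw [inv_inv, mul_comm]

open Classical in
/-- the matrix of the sign of the degree -/
def eM (G : SimpleGraph V) :
    Matrix (Fin (Fintype.card (Finset V))) (Fin (Fintype.card (Finset V))) (MonoidAlgebra ℚ (W G)) :=
  Matrix.of fun i j => if i = j then MonoidAlgebra.single 1 ((-1) ^ (sx V j).card) else 0

theorem coord_eM (x : L2Pow (W G) (Fintype.card (Finset V))) (j : Fin (Fintype.card (Finset V))) (w : W G) :
    coord (rMul (eM G) x) j w = (-1) ^ (sx V j).card * coord x j w := by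
  classical
  rw [coord_rMul, Finset.sum_eq_single j]
  · unfold eM
    rw [Matrix.of_apply, if_pos rfl, act_single]
    push_cast
    rw [inv_one, mul_one]
  · intro i _ hi
    unfold eM
    rw [Matrix.of_apply, if_neg hi, act_zero]
  · simp

theorem eM_mem (x : L2Pow (W G) (Fintype.card (Finset V))) (hx : x ∈ LC G) : rMul (eM G) x ∈ LC G := by
  refine ⟨fun j w hj => ?_, fun j w t ht => ?_⟩
  · rw [coord_eM, hx.1 j w hj, mul_zero]
  · rw [coord_eM, coord_eM, hx.2 j w t ht]; ring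

variable (G) in
/-- the sign of the degree -/
def eps : LC G →L[ℂ] LC G :=
  ((rMul (eM G)).comp (LC G).subtypeL).codRestrict (LC G) fun x => eM_mem x.1 x.2

theorem coord_eps (x : LC G) (j : Fin (Fintype.card (Finset V))) (w : W G) :
    coord (eps G x).1 j w = (-1) ^ (sx V j).card * coord x.1 j w := coord_eM x.1 j w

theorem eqv_eps : Eqv (eps G) := by
  intro g x y h j w
  rw [coord_eps, coord_eps, h]

end

section
variable {V : Type} [Fintype V] [LinearOrder V] {G : SimpleGraph V}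

theorem eqv_dL : Eqv (dL G) := by
  intro g x y h j w
  show coord (rMul (dM G) y.1) j w = coord (rMul (dM G) x.1) j (g⁻¹ * w)
  rw [coord_dM, coord_dM]
  exact Finset.sum_congr rfl fun v _ => by rw [h]

theorem eqv_sL : Eqv (sL G) := by
  intro g x y h j w
  show coord (rMul (sM G) y.1) j w = coord (rMul (sM G) x.1) j (g⁻¹ * w)
  by_cases hj : G.IsClique (sx V j : Set V)
  · rw [coord_sM _ _ _ hj, coord_sM _ _ _ hj]
    exact Finset.sum_congr rfl fun v _ => by rw [h, h, mul_assoc]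
  · rw [coord_sM_not _ _ _ hj, coord_sM_not _ _ _ hj]

theorem Eqv.add {A B : LC G →L[ℂ] LC G} (hA : Eqv A) (hB : Eqv B) : Eqv (A + B) := by
  intro g x y h j w
  show coord ((A y).1 + (B y).1) j w = coord ((A x).1 + (B x).1) j (g⁻¹ * w)
  rw [coord_add, coord_add, hA g x y h, hB g x y h]

theorem Eqv.smul {A : LC G →L[ℂ] LC G} (c : ℂ) (hA : Eqv A) : Eqv (c • A) := by
  intro g x y h j w
  show coord (c • (A y).1) j w = coord (c • (A x).1) j (g⁻¹ * w)
  rw [coord_smul, coord_smul, hA g x y h]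

theorem eqv_lap : Eqv (lap G) := by
  rw [lap_eq]
  exact Eqv.smul _ ((eqv_sL.comp eqv_dL).add (eqv_dL.comp eqv_sL))

theorem eqv_lap_pow (m : ℕ) : Eqv ((lap G) ^ m) := by
  induction m with
  | zero =>
    intro g x y h
    exact h
  | succ m ih =>
    intro g x y h
    have e : ∀ z : LC G, ((lap G) ^ (m + 1)) z = ((lap G) ^ m) (lap G z) := by
      intro z
      rw [pow_succ]
      rfl
    rw [e, e]
    exact ih g _ _ (eqv_lap g _ _ h)

theorem fn_inj {x y : LC G} (h : fn x.1 = fn y.1) : x = y := by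
  apply Subtype.ext
  apply coord_ext
  intro j w
  have h1 := congrFun (congrFun h w) (sx V j)
  unfold fn at h1
  rwa [Equiv.symm_apply_apply] at h1

theorem fn_eps (x : LC G) : fn (eps G x).1 = ep (fn x.1) := by
  funext w T
  unfold fn ep
  rw [coord_eps, Equiv.apply_symm_apply]

theorem fn_neg (x : LC G) : fn (-x).1 = - fn x.1 := rfl

theorem dF_dF (c : W G → Finset V → ℂ) : dF G (dF G c) = 0 := by
  funext w T
  have h := congrFun (bd_bd (F := ℂ) (M := ℂ) (c w)) T
  have e : ∀ (b : Finset V → ℂ) (S : Finset V), bd ℂ b S = ∑ v ∈ Sᶜ, (sg v S : ℂ) * b (insert v S) := by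
    intro b S
    rw [bd_apply]
    exact Finset.sum_congr rfl fun v _ => by rw [zsmul_eq_mul]
  rw [e] at h
  rw [dF_apply]
  refine Eq.trans (Finset.sum_congr rfl fun v _ => ?_) h
  rw [dF_apply, e]

theorem eps_dL (x : LC G) : eps G (dL G x) = - dL G (eps G x) := by
  apply fn_inj
  rw [fn_eps, fn_dL, fn_neg, fn_dL, fn_eps, ep_dF, neg_neg]

theorem eps_sL (x : LC G) : eps G (sL G x) = - sL G (eps G x) := by
  apply fn_inj
  rw [fn_eps, fn_sL, fn_neg, fn_sL, fn_eps, ep_dS, neg_neg]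

theorem lap_app (x : LC G) : lap G x = (2 : ℂ) • (sL G (dL G x) + dL G (sL G x)) := by
  rw [lap_eq]; rfl

theorem eps_lap (x : LC G) : eps G (lap G x) = lap G (eps G x) := by
  rw [lap_app, lap_app, map_smul, map_add, eps_sL, eps_dL, eps_dL, eps_sL, map_neg, map_neg, neg_neg, neg_neg]

theorem dL_dL (x : LC G) : dL G (dL G x) = 0 := by
  apply fn_inj
  rw [fn_dL, fn_dL, dF_dF]
  rfl

theorem dL_lap (x : LC G) : dL G (lap G x) = lap G (dL G x) := by
  rw [lap_app, lap_app, map_smul, map_add, dL_dL, dL_dL, map_zero, add_zero, zero_add]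

theorem eps_pow (m : ℕ) (x : LC G) : eps G (((lap G) ^ m) x) = ((lap G) ^ m) (eps G x) := by
  induction m generalizing x with
  | zero => rfl
  | succ m ih =>
    have e : ∀ z : LC G, ((lap G) ^ (m + 1)) z = ((lap G) ^ m) (lap G z) := fun z => by rw [pow_succ]; rfl
    rw [e, e, ih, eps_lap]

theorem dL_pow (m : ℕ) (x : LC G) : dL G (((lap G) ^ m) x) = ((lap G) ^ m) (dL G x) := by
  induction m generalizing x with
  | zero => rfl
  | succ m ih =>
    have e : ∀ z : LC G, ((lap G) ^ (m + 1)) z = ((lap G) ^ m) (lap G z) := fun z => by rw [pow_succ]; rfl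
    rw [e, e, ih, dL_lap]

/-- the supertrace of an operator -/
theorem stg_eq (m : ℕ) : stg G m = ∑ j, ⟪ev G j, eps G (((lap G) ^ m) (ev G j))⟫_ℂ := by
  unfold stg
  rw [← (sx V).sum_comp]
  refine Finset.sum_congr rfl fun j _ => ?_
  rw [← inner_lap_pow, inner_ev, inner_ev, coord_eps]

theorem stg_succ (m : ℕ) : stg G (m + 1) = 0 := by
  rw [stg_eq]
  have e : ∀ z : LC G, ((lap G) ^ (m + 1)) z = lap G (((lap G) ^ m) z) := fun z => by rw [pow_succ']; rfl
  have h1 : ∀ j, ⟪ev G j, eps G (((lap G) ^ (m + 1)) (ev G j))⟫_ℂ =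
      2 * (⟪ev G j, eps G (sL G (dL G (((lap G) ^ m) (ev G j))))⟫_ℂ +
        ⟪ev G j, eps G (dL G (sL G (((lap G) ^ m) (ev G j))))⟫_ℂ) := by
    intro j
    rw [e, lap_app, map_smul, map_add, inner_smul_right, inner_add_right]
  rw [Finset.sum_congr rfl fun j _ => h1 j, ← Finset.mul_sum, Finset.sum_add_distrib]
  have h2 := trace_comm (G := G) (sL G ∘L ((lap G) ^ m)) (eps G ∘L dL G) (eqv_sL.comp (eqv_lap_pow m))
    (eqv_eps.comp eqv_dL)
  have h3 : ∀ j, ⟪ev G j, (eps G ∘L dL G) ((sL G ∘L ((lap G) ^ m)) (ev G j))⟫_ℂ =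
      ⟪ev G j, eps G (dL G (sL G (((lap G) ^ m) (ev G j))))⟫_ℂ := fun j => rfl
  have h4 : ∀ j, ⟪ev G j, (sL G ∘L ((lap G) ^ m)) ((eps G ∘L dL G) (ev G j))⟫_ℂ =
      - ⟪ev G j, eps G (sL G (dL G (((lap G) ^ m) (ev G j))))⟫_ℂ := by
    intro j
    have e1 : (sL G ∘L ((lap G) ^ m)) ((eps G ∘L dL G) (ev G j)) =
        - eps G (sL G (dL G (((lap G) ^ m) (ev G j)))) := by
      show sL G (((lap G) ^ m) (eps G (dL G (ev G j)))) = _
      rw [← eps_pow, eps_sL, neg_neg, dL_pow]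
    rw [e1, inner_neg_right]
  rw [Finset.sum_congr rfl fun j _ => h3 j, Finset.sum_congr rfl fun j _ => h4 j, Finset.sum_neg_distrib] at h2
  rw [h2]
  ring

end

end Pool.Agent.N504.TL
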