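import Pool.Agent.N504.TL.An
import Pool.Agent.N504.TL.MS

/-!
# Integrability of the logarithm
-/

set_option autoImplicit false

open scoped InnerProductSpace Topology

noncomputable section

namespace Pool.Agent.N504.TL

open Pool.Agent.W907.SG Pool.Agent.Helper993.FK Pool.Agent.W461.SGN Pool.Agent.N504.TG MeasureTheory

section gen
variable {Q : Type} [Group Q] {r s : ℕ}

theorem rMul_add' (A B : Matrix (Fin r) (Fin s) (MonoidAlgebra ℚ Q)) : rMul (A + B) = rMul A + rMul B := by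
  rw [rMul_eq_sc, rMul_eq_sc, rMul_eq_sc, ← Finset.sum_add_distrib]
  refine Finset.sum_congr rfl fun i _ => ?_
  rw [← Finset.sum_add_distrib]
  refine Finset.sum_congr rfl fun j _ => ?_
  rw [Matrix.add_apply, sc_add]

theorem sc_smul' (i : Fin r) (j : Fin s) (c : ℚ) (a : MonoidAlgebra ℚ Q) :
    (sc i j (c • a) : L2Pow Q r →L[ℂ] L2Pow Q s) = (c : ℂ) • sc i j a := by
  classical
  rw [sc_eq_sum i j (c • a) a.coeff.support (by
    rw [MonoidAlgebra.coeff_smul]; exact Finsupp.support_smul), sc, Finset.smul_sum]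
  refine Finset.sum_congr rfl fun g _ => ?_
  rw [smul_smul, MonoidAlgebra.coeff_smul, Finsupp.smul_apply, smul_eq_mul]
  push_cast
  rfl

theorem rMul_smul' (c : ℚ) (A : Matrix (Fin r) (Fin s) (MonoidAlgebra ℚ Q)) :
    rMul (c • A) = (c : ℂ) • rMul A := by
  rw [rMul_eq_sc, rMul_eq_sc, Finset.smul_sum]
  refine Finset.sum_congr rfl fun i _ => ?_
  rw [Finset.smul_sum]
  refine Finset.sum_congr rfl fun j _ => ?_
  rw [Matrix.smul_apply, sc_smul']

variable [NeZero r] (N : ℕ → Subgroup Q) [∀ i, (N i).Normal]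
  [∀ i, Finite (Q ⧸ N i)] (hanti : Antitone N) (hinf : ⨅ i, N i = ⊥)

include hanti hinf in
theorem gm_bound (A : Matrix (Fin r) (Fin s) (MonoidAlgebra ℤ Q))
    (hinj : ∀ v, rMul (A.map toQ) v = 0 → v = 0) : ∃ C : ℝ, ∀ M : ℝ, 0 ≤ M →
      traceVal unitVec ((ContinuousLinearMap.adjoint (rMul (A.map toQ))) ∘L (rMul (A.map toQ))) (gm M) ≤ C := by
  have e1 : (A.map toQ) * adjQ (A.map toQ) = (A * adjZ A).map toQ := by
    rw [toQ_mul, toQ_adjZ]
  have hS : 0 ≤ rMul ((A * adjZ A).map toQ) := by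
    rw [← e1]; exact rMul_self_nonneg _
  have hSi : ∀ i, 0 ≤ rMul (mq (N i) ((A * adjZ A).map toQ)) := by
    intro i
    rw [← e1, mq_mul, mq_adjQ]
    exact rMul_self_nonneg _
  have hinj' : ∀ v, rMul ((A * adjZ A).map toQ) v = 0 → v = 0 := by
    intro v hv
    rw [← e1, ← adjoint_comp_rMul] at hv
    exact hinj v (ker_adjoint_comp _ v hv)
  refine ⟨2 * r * Real.log (KK (A * adjZ A)), fun M hM => ?_⟩
  rw [adjoint_comp_rMul, e1]
  exact traceVal_gm_le N hanti hinf (A * adjZ A) hS hSi hinj' hM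

end gen

section
variable {V : Type} [Fintype V] [LinearOrder V] (G : SimpleGraph V)

/-- a common multiple of the orders of the finite parabolic subgroups -/
def NN : ℕ := ∏ T : Finset V, max 1 (FT G T).card

theorem NN_pos : 0 < NN G := Finset.prod_pos fun T _ => lt_of_lt_of_le zero_lt_one (le_max_left _ _)

variable {G} in
theorem dvd_NN {T : Finset V} (h : G.IsClique (T : Set V)) : (FT G T).card ∣ NN G := by
  have h1 : (FT G T).card = max 1 (FT G T).card := (max_eq_right (card_FT_pos h)).symm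
  rw [h1]
  exact Finset.dvd_prod_of_mem (fun T => max 1 (FT G T).card) (Finset.mem_univ T)

/-- integral matrices -/
def pZ : Matrix (Fin (Fintype.card (Finset V))) (Fin (Fintype.card (Finset V))) (MonoidAlgebra ℤ (W G)) :=
  Matrix.of fun i j => if i = j then
    ∑ u ∈ FT G (sx V j), MonoidAlgebra.single u (sT G (sx V j) u * ((NN G / (FT G (sx V j)).card : ℕ) : ℤ)) else 0

/-- integral matrices -/
def dZ : Matrix (Fin (Fintype.card (Finset V))) (Fin (Fintype.card (Finset V))) (MonoidAlgebra ℤ (W G)) :=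
  Matrix.of fun i j => ∑ v ∈ (sx V j)ᶜ,
    if sx V i = insert v (sx V j) then MonoidAlgebra.single 1 (sg v (sx V j)) else 0

open Classical in
/-- integral matrices -/
def sZ : Matrix (Fin (Fintype.card (Finset V))) (Fin (Fintype.card (Finset V))) (MonoidAlgebra ℤ (W G)) :=
  Matrix.of fun j i => if G.IsClique (sx V i : Set V) then ∑ t ∈ sx V i,
    if sx V j = (sx V i).erase t then
      (MonoidAlgebra.single 1 (sg t ((sx V i).erase t)) +
        MonoidAlgebra.single ((cox G).simple t) (-(sg t ((sx V i).erase t)))) else 0 else 0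

/-- the integral matrix -/
def aZ : Matrix (Fin (Fintype.card (Finset V))) (Fin (Fintype.card (Finset V))) (MonoidAlgebra ℤ (W G)) :=
  (NN G : ℤ) • (1 : Matrix _ _ (MonoidAlgebra ℤ (W G))) - pZ G + pZ G * (dZ G * sZ G + sZ G * dZ G)

theorem toQ_single (g : W G) (c : ℤ) : toQ (MonoidAlgebra.single g c) = MonoidAlgebra.single g (c : ℚ) := by
  unfold toQ
  simp

theorem toQ_zero : toQ (0 : MonoidAlgebra ℤ (W G)) = 0 := map_zero (MonoidAlgebra.mapRingHom (W G) (Int.castRingHom ℚ))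

theorem toQ_add (a b : MonoidAlgebra ℤ (W G)) : toQ (a + b) = toQ a + toQ b :=
  map_add (MonoidAlgebra.mapRingHom (W G) (Int.castRingHom ℚ)) a b

theorem toQ_sum {ι : Type} (S : Finset ι) (f : ι → MonoidAlgebra ℤ (W G)) :
    toQ (∑ i ∈ S, f i) = ∑ i ∈ S, toQ (f i) :=
  map_sum (MonoidAlgebra.mapRingHom (W G) (Int.castRingHom ℚ)) f S

theorem smul_single' (c : ℚ) (g : W G) (a : ℚ) :
    c • (MonoidAlgebra.single g a : MonoidAlgebra ℚ (W G)) = MonoidAlgebra.single g (c * a) := by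
  rw [MonoidAlgebra.smul_single, smul_eq_mul]

theorem pZ_map : (pZ G).map toQ = (NN G : ℚ) • pM G := by
  classical
  ext1 i j
  rw [Matrix.map_apply, Matrix.smul_apply]
  unfold pZ pM
  rw [Matrix.of_apply, Matrix.of_apply]
  by_cases h : i = j
  · rw [if_pos h, if_pos h, toQ_sum, Finset.smul_sum]
    refine Finset.sum_congr rfl fun u hu => ?_
    have hj : G.IsClique (sx V j : Set V) := by
      by_contra hcon
      rw [FT_not hcon] at hu
      exact Finset.notMem_empty _ hu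
    rw [toQ_single, smul_single']
    have e : ((((NN G / (FT G (sx V j)).card : ℕ) : ℤ)) : ℚ) = (NN G : ℚ) / ((FT G (sx V j)).card : ℚ) := by
      rw [Int.cast_natCast, Nat.cast_div (dvd_NN hj) (by exact_mod_cast (card_FT_pos hj).ne')]
    rw [Int.cast_mul, e]
    congr 1
    ring
  · rw [if_neg h, if_neg h, toQ_zero, smul_zero]

theorem dZ_map : (dZ G).map toQ = dM G := by
  ext1 i j
  rw [Matrix.map_apply]
  unfold dZ dM
  rw [Matrix.of_apply, Matrix.of_apply, toQ_sum]
  refine Finset.sum_congr rfl fun v _ => ?_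
  split_ifs
  · rw [toQ_single]
  · exact toQ_zero G

theorem sZ_map : (sZ G).map toQ = (2 : ℚ) • sM G := by
  classical
  ext1 j i
  rw [Matrix.map_apply, Matrix.smul_apply]
  unfold sZ sM
  rw [Matrix.of_apply, Matrix.of_apply]
  by_cases h : G.IsClique (sx V i : Set V)
  · rw [if_pos h, if_pos h, toQ_sum, Finset.smul_sum]
    refine Finset.sum_congr rfl fun t _ => ?_
    split_ifs
    · rw [toQ_add, toQ_single, toQ_single, smul_add, smul_single', smul_single']
      congr 2 <;> push_cast <;> ring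
    · rw [toQ_zero, smul_zero]
  · rw [if_neg h, if_neg h, toQ_zero, smul_zero]

theorem aZ_map : (aZ G).map toQ = (NN G : ℚ) • (1 : Matrix _ _ (MonoidAlgebra ℚ (W G))) + (-(NN G : ℚ)) • pM G +
    ((NN G : ℚ) • pM G) * (dM G * ((2 : ℚ) • sM G) + ((2 : ℚ) • sM G) * dM G) := by
  have h : (toQ : MonoidAlgebra ℤ (W G) → MonoidAlgebra ℚ (W G))
    = MonoidAlgebra.mapRingHom (W G) (Int.castRingHom ℚ) := rfl
  have h1 : ∀ A B : Matrix (Fin (Fintype.card (Finset V))) (Fin (Fintype.card (Finset V))) (MonoidAlgebra ℤ (W G)),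
      (A + B).map toQ = A.map toQ + B.map toQ := fun A B => by
    rw [h]; exact Matrix.map_add _ (map_add _) A B
  have h2 : ∀ A B : Matrix (Fin (Fintype.card (Finset V))) (Fin (Fintype.card (Finset V))) (MonoidAlgebra ℤ (W G)),
      (A - B).map toQ = A.map toQ - B.map toQ := fun A B => by
    rw [h]; exact Matrix.map_sub _ (map_sub _) A B
  have h3 : ((NN G : ℤ) • (1 : Matrix (Fin (Fintype.card (Finset V))) (Fin (Fintype.card (Finset V)))
      (MonoidAlgebra ℤ (W G)))).map toQ = (NN G : ℚ) • 1 := by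
    ext1 i j
    rw [Matrix.map_apply, Matrix.smul_apply, Matrix.smul_apply, Matrix.one_apply, Matrix.one_apply]
    split_ifs
    · rw [h, map_zsmul, map_one]
      rw [← Int.cast_smul_eq_zsmul ℚ]
      push_cast
      rfl
    · rw [smul_zero, smul_zero]; exact toQ_zero G
  unfold aZ
  rw [h1, h2, h3, toQ_mul, h1, toQ_mul, toQ_mul, pZ_map, dZ_map, sZ_map, neg_smul, ← sub_eq_add_neg]

/-- the projection to the chains -/
def PL (x : L2Pow (W G) (Fintype.card (Finset V))) : LC G := ⟨rMul (pM G) x, pM_mem x⟩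

variable {G}

theorem aZ_apply (x : L2Pow (W G) (Fintype.card (Finset V))) :
    rMul ((aZ G).map toQ) x = (NN G : ℂ) • (x - (PL G x).1) + (NN G : ℂ) • (lap G (PL G x)).1 := by
  rw [aZ_map, rMul_add', rMul_add', rMul_mul, rMul_add', rMul_mul, rMul_mul, rMul_smul', rMul_smul', rMul_smul',
    rMul_smul', rMul_one]
  have e1 : (lap G (PL G x)).1 = (2 : ℂ) • (rMul (sM G) (rMul (dM G) (rMul (pM G) x)) +
      rMul (dM G) (rMul (sM G) (rMul (pM G) x))) := by
    rw [lap_app]; rfl
  rw [e1]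
  show (((NN G : ℚ) : ℂ) • x + (((-(NN G : ℚ)) : ℚ) : ℂ) • rMul (pM G) x) +
    ((((2 : ℚ) : ℂ) • rMul (sM G) (rMul (dM G) (((NN G : ℚ) : ℂ) • rMul (pM G) x))) +
      rMul (dM G) (((2 : ℚ) : ℂ) • rMul (sM G) (((NN G : ℚ) : ℂ) • rMul (pM G) x))) =
    (NN G : ℂ) • (x - rMul (pM G) x) + (NN G : ℂ) • ((2 : ℂ) • (rMul (sM G) (rMul (dM G) (rMul (pM G) x)) +
      rMul (dM G) (rMul (sM G) (rMul (pM G) x))))
  simp only [map_smul, smul_add, smul_sub, Rat.cast_neg, Rat.cast_natCast, neg_smul, Rat.cast_ofNat, smul_smul]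
  rw [mul_comm (NN G : ℂ) 2]
  abel

theorem PL_coe (x : LC G) : PL G x.1 = x := Subtype.ext (pM_eq x.2)

theorem lap_adj : ContinuousLinearMap.adjoint (lap G) = lap G := by
  unfold lap
  rw [map_smulₛₗ, map_add, ContinuousLinearMap.adjoint_comp, ContinuousLinearMap.adjoint_comp,
    ContinuousLinearMap.adjoint_adjoint, show (starRingEnd ℂ) (2 : ℂ) = 2 from map_ofNat _ 2]

theorem inner_PL (x y : L2Pow (W G) (Fintype.card (Finset V))) : ⟪(PL G x).1, y⟫_ℂ = ⟪x, (PL G y).1⟫_ℂ := by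
  have h := ContinuousLinearMap.adjoint_inner_right (rMul (pM G)) x y
  rw [pM_adj] at h
  exact h.symm

theorem aZ_adj : ContinuousLinearMap.adjoint (rMul ((aZ G).map toQ)) = rMul ((aZ G).map toQ) := by
  symm
  rw [ContinuousLinearMap.eq_adjoint_iff]
  suffices key : ∀ x y : L2Pow (W G) (Fintype.card (Finset V)), ⟪rMul ((aZ G).map toQ) x, y⟫_ℂ =
      ⟪x, rMul ((aZ G).map toQ) y⟫_ℂ from fun x y => key x y
  intro x y
  rw [aZ_apply, aZ_apply, iaddl, iaddr, ismull, ismull, ismulr, ismulr, isubl, isubr, inner_PL]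
  have h1 : ⟪(lap G (PL G x)).1, y⟫_ℂ = ⟪x, (lap G (PL G y)).1⟫_ℂ := by
    have e1 := inner_PL (lap G (PL G x)).1 y
    rw [PL_coe] at e1
    have e2 := inner_PL x (lap G (PL G y)).1
    rw [PL_coe] at e2
    rw [e1, ← e2]
    have e3 := ContinuousLinearMap.adjoint_inner_right (lap G) (PL G x) (PL G y)
    rw [lap_adj] at e3
    exact e3.symm
  rw [h1]
  simp

theorem aZ_inj (hinj : ∀ x : LC G, lap G x = 0 → x = 0) (v : L2Pow (W G) (Fintype.card (Finset V)))
    (hv : rMul ((aZ G).map toQ) v = 0) : v = 0 := by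
  have hN : (NN G : ℂ) ≠ 0 := by exact_mod_cast (NN_pos G).ne'
  rw [aZ_apply, ← smul_add] at hv
  have h1 : v - (PL G v).1 + (lap G (PL G v)).1 = 0 := (smul_eq_zero.mp hv).resolve_left hN
  have h2 : (PL G (v - (PL G v).1 + (lap G (PL G v)).1)) = lap G (PL G v) := by
    apply Subtype.ext
    show rMul (pM G) (v - (PL G v).1 + (lap G (PL G v)).1) = _
    rw [map_add, map_sub, pM_eq (PL G v).2, pM_eq (lap G (PL G v)).2]
    show rMul (pM G) v - rMul (pM G) v + _ = _
    rw [sub_self, zero_add]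
  have h3 : PL G (0 : L2Pow (W G) (Fintype.card (Finset V))) = 0 := by
    apply Subtype.ext
    show rMul (pM G) 0 = 0
    rw [map_zero]
  rw [h1, h3] at h2
  have h4 := hinj _ h2.symm
  rw [h4, map_zero] at h1
  have h5 : v - 0 + 0 = (0 : L2Pow (W G) (Fintype.card (Finset V))) := h1
  rwa [sub_zero, add_zero] at h5

end

end Pool.Agent.N504.TL
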