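import Pool.Agent.N504.TL.Alg

/-!
# The basic vectors
-/

set_option autoImplicit false

open scoped InnerProductSpace

noncomputable section

namespace Pool.Agent.N504.TL

open Pool.Agent.W907.SG Pool.Agent.Helper993.FK Pool.Agent.W461.SGN Pool.Agent.N504.TG
open Pool.Agent.TH652.Join

section
variable {V : Type} [DecidableEq V] (G : SimpleGraph V)

open Classical in
/-- the basic functions -/
def eF (T : Finset V) : W G → Finset V → ℂ := fun w T' =>
  if T' = T then (if w ∈ FT G T then (sT G T w : ℂ) / (FT G T).card else 0) else 0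

theorem CS_eF (T : Finset V) : CS (eF G T) := by
  classical
  intro w T' h
  unfold eF
  by_cases hT : T' = T
  · subst hT
    rw [if_pos rfl, FT_not h, if_neg (Finset.notMem_empty _)]
  · rw [if_neg hT]

end

section
variable {V : Type} [Fintype V] [DecidableEq V] {G : SimpleGraph V}

theorem coord_ev (j j' : Fin (Fintype.card (Finset V))) (w : W G) :
    coord (ev G j : L2Pow (W G) (Fintype.card (Finset V))) j' w = eF G (sx V j) w (sx V j') := by
  classical
  unfold ev
  rw [proj_eq, coord_pM]
  unfold eF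
  by_cases h : j' = j
  · subst h
    rw [if_pos rfl]
    simp only [coord_unitVec, true_and, mul_inv_eq_one, mul_ite, mul_one, mul_zero]
    rw [Finset.sum_ite_eq]
  · rw [if_neg (fun e => h ((sx V).injective e))]
    refine Finset.sum_eq_zero fun u _ => ?_
    rw [coord_unitVec, if_neg (fun e => h e.1), mul_zero]

end

section
variable {V U : Type} {G : SimpleGraph V} {H : SimpleGraph U}

theorem th_join (w : W (join G H)) : (∀ v, th (join G H) w (Sum.inl v) = th G (pl G H w) v) ∧
      ∀ u, th (join G H) w (Sum.inr u) = th H (pr G H w) u := by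
  refine W_ind _ (fun w => (∀ v, th (join G H) w (Sum.inl v) = th G (pl G H w) v) ∧
      ∀ u, th (join G H) w (Sum.inr u) = th H (pr G H w) u) (by simp) (fun w x hw => ?_) w
  obtain ⟨i1, i2⟩ := hw
  rcases x with v | u
  · refine ⟨fun v' => ?_, fun u' => ?_⟩
    · rw [map_mul (pl G H), pl_inl]
      by_cases h : v' = v
      · subst h
        rw [th_self, th_self, i1]
      · rw [th_other _ _ _ _ (fun e => h (Sum.inl_injective e)), th_other _ _ _ _ h, i1]
    · rw [map_mul (pr G H), pr_inl, mul_one, th_other _ _ _ _ (by simp), i2]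
  · refine ⟨fun v' => ?_, fun u' => ?_⟩
    · rw [map_mul (pl G H), pl_inr, mul_one, th_other _ _ _ _ (by simp), i1]
    · rw [map_mul (pr G H), pr_inr]
      by_cases h : u' = u
      · subst h
        rw [th_self, th_self, i2]
      · rw [th_other _ _ _ _ (fun e => h (Sum.inr_injective e)), th_other _ _ _ _ h, i2]

theorem sT_join (T : Finset V) (S : Finset U) (w : W (join G H)) :
    sT (join G H) (T.disjSum S) w = sT G T (pl G H w) * sT H S (pr G H w) := by
  unfold sT
  rw [Finset.prod_disjSum, ← Units.val_mul]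
  congr 2
  · exact Finset.prod_congr rfl fun v _ => (th_join w).1 v
  · exact Finset.prod_congr rfl fun u _ => (th_join w).2 u

theorem mem_WT_join (T : Finset V) (S : Finset U) (w : W (join G H)) :
    w ∈ WT (join G H) (T.disjSum S) ↔ pl G H w ∈ WT G T ∧ pr G H w ∈ WT H S := by
  constructor
  · intro hw
    refine Subgroup.closure_induction (p := fun w _ => pl G H w ∈ WT G T ∧ pr G H w ∈ WT H S) ?_ ?_ ?_ ?_ hw
    · rintro _ ⟨x, hx, rfl⟩
      rcases x with v | u
      · refine ⟨?_, ?_⟩
        · rw [pl_inl]; exact simple_mem_WT (by simpa using hx)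
        · rw [pr_inl]; exact Subgroup.one_mem _
      · refine ⟨?_, ?_⟩
        · rw [pl_inr]; exact Subgroup.one_mem _
        · rw [pr_inr]; exact simple_mem_WT (by simpa using hx)
    · rw [map_one, map_one]
      exact ⟨Subgroup.one_mem _, Subgroup.one_mem _⟩
    · intro x y _ _ hx hy
      rw [map_mul, map_mul]
      exact ⟨Subgroup.mul_mem _ hx.1 hy.1, Subgroup.mul_mem _ hx.2 hy.2⟩
    · intro x _ hx
      rw [map_inv, map_inv]
      exact ⟨Subgroup.inv_mem _ hx.1, Subgroup.inv_mem _ hx.2⟩
  · rintro ⟨h1, h2⟩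
    rw [← decomp G H w]
    refine Subgroup.mul_mem _ ?_ ?_
    · refine Subgroup.closure_induction (p := fun a _ => jl G H a ∈ WT (join G H) (T.disjSum S)) ?_ ?_ ?_ ?_ h1
      · rintro _ ⟨v, hv, rfl⟩
        rw [jl_simple]
        exact simple_mem_WT (by simpa using hv)
      · rw [map_one]; exact Subgroup.one_mem _
      · intro x y _ _ hx hy
        rw [map_mul]; exact Subgroup.mul_mem _ hx hy
      · intro x _ hx
        rw [map_inv]; exact Subgroup.inv_mem _ hx
    · refine Subgroup.closure_induction (p := fun a _ => jr G H a ∈ WT (join G H) (T.disjSum S)) ?_ ?_ ?_ ?_ h2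
      · rintro _ ⟨v, hv, rfl⟩
        rw [jr_simple]
        exact simple_mem_WT (by simpa using hv)
      · rw [map_one]; exact Subgroup.one_mem _
      · intro x y _ _ hx hy
        rw [map_mul]; exact Subgroup.mul_mem _ hx hy
      · intro x _ hx
        rw [map_inv]; exact Subgroup.inv_mem _ hx

end

section
variable {V U : Type} {G : SimpleGraph V} {H : SimpleGraph U} [Fintype V] [Fintype U]

theorem mem_FT_join (T : Finset V) (S : Finset U) (w : W (join G H)) :
    w ∈ FT (join G H) (T.disjSum S) ↔ pl G H w ∈ FT G T ∧ pr G H w ∈ FT H S := by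
  classical
  letI : LinearOrder V := LinearOrder.lift' (Fintype.equivFin V) (Fintype.equivFin V).injective
  letI : LinearOrder U := LinearOrder.lift' (Fintype.equivFin U) (Fintype.equivFin U).injective
  by_cases hT : G.IsClique (T : Set V)
  · by_cases hS : H.IsClique (S : Set U)
    · rw [mem_FT ((clique_join G H T S).2 ⟨hT, hS⟩), mem_FT hT, mem_FT hS, mem_WT_join]
    · rw [FT_not fun h => hS ((clique_join G H T S).1 h).2, FT_not hS]
      simp
  · rw [FT_not fun h => hT ((clique_join G H T S).1 h).1, FT_not hT]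
    simp

theorem card_FT_join (T : Finset V) (S : Finset U) :
    (FT (join G H) (T.disjSum S)).card = (FT G T).card * (FT H S).card := by
  rw [← Finset.card_product]
  refine Finset.card_nbij' (fun w => (pl G H w, pr G H w)) (fun x => jl G H x.1 * jr G H x.2) ?_ ?_ ?_ ?_
  · intro w hw
    have h := (mem_FT_join T S w).1 (by simpa using hw)
    simpa using h
  · intro x hx
    have h : x.1 ∈ FT G T ∧ x.2 ∈ FT H S := by simpa using hx
    rw [Finset.mem_coe, mem_FT_join, map_mul, map_mul, pl_jl, pl_jr, pr_jl, pr_jr, mul_one, one_mul]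
    exact h
  · intro w _
    exact decomp G H w
  · rintro ⟨a, b⟩ _
    show (pl G H (jl G H a * jr G H b), pr G H (jl G H a * jr G H b)) = (a, b)
    rw [map_mul, map_mul, pl_jl, pl_jr, pr_jl, pr_jr, mul_one, one_mul]

theorem eF_join {i1 : DecidableEq V} {i2 : DecidableEq U} {i3 : DecidableEq (V ⊕ U)} (T : Finset V) (S : Finset U) :
    @eF (V ⊕ U) i3 (join G H) (T.disjSum S) = tn (eF G T) (eF H S) := by
  classical
  refine tn_ext fun w T' S' => ?_
  rw [tn_apply]
  unfold eF
  by_cases hT : T' = T
  · by_cases hS : S' = S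
    · subst hT hS
      rw [if_pos rfl, if_pos rfl, if_pos rfl]
      by_cases h1 : pl G H w ∈ FT G T'
      · by_cases h2 : pr G H w ∈ FT H S'
        · rw [if_pos ((mem_FT_join T' S' w).2 ⟨h1, h2⟩), if_pos h1, if_pos h2, card_FT_join, sT_join]
          push_cast
          rw [mul_div_mul_comm]
        · rw [if_neg fun h => h2 ((mem_FT_join T' S' w).1 h).2, if_neg h2, mul_zero]
      · rw [if_neg fun h => h1 ((mem_FT_join T' S' w).1 h).1, if_neg h1, zero_mul]
    · rw [if_neg hS, mul_zero, if_neg]
      intro h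
      have := congrArg Finset.toRight h
      rw [Finset.toRight_disjSum, Finset.toRight_disjSum] at this
      exact hS this
  · rw [if_neg hT, zero_mul, if_neg]
    intro h
    have := congrArg Finset.toLeft h
    rw [Finset.toLeft_disjSum, Finset.toLeft_disjSum] at this
    exact hT this

end

/-! ### moments -/

section
variable {V : Type} [Fintype V] [LinearOrder V] {G : SimpleGraph V}

/-- the function of a chain -/
def fn (x : L2Pow (W G) (Fintype.card (Finset V))) : W G → Finset V → ℂ := fun w T => coord x ((sx V).symm T) w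

theorem fn_ev (j : Fin (Fintype.card (Finset V))) :
    fn (ev G j : L2Pow (W G) (Fintype.card (Finset V))) = eF G (sx V j) := by
  funext w T
  unfold fn
  rw [coord_ev, Equiv.apply_symm_apply]

theorem fn_dL (x : LC G) : fn (dL G x : L2Pow (W G) (Fintype.card (Finset V))) = dF G (fn x.1) := by
  funext w T
  show coord (rMul (dM G) x.1) ((sx V).symm T) w = _
  rw [coord_dM, Equiv.apply_symm_apply]
  rfl

theorem fn_sL (x : LC G) : fn (sL G x : L2Pow (W G) (Fintype.card (Finset V))) = dS G (fn x.1) := by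
  funext w T
  show coord (rMul (sM G) x.1) ((sx V).symm T) w = _
  by_cases h : G.IsClique (T : Set V)
  · rw [coord_sM _ _ _ (by rwa [Equiv.apply_symm_apply]), Equiv.apply_symm_apply, dS_apply _ _ h]
    rfl
  · rw [coord_sM_not _ _ _ (by rwa [Equiv.apply_symm_apply]), dS_not _ _ h]

theorem lap_eq : lap G = (2 : ℂ) • (sL G ∘L dL G + dL G ∘L sL G) := by
  unfold lap
  rw [adj_dL]

theorem fn_lap (x : LC G) : fn (lap G x : L2Pow (W G) (Fintype.card (Finset V))) = lF G (fn x.1) := by
  rw [lap_eq, lF_apply, ← fn_dL, ← fn_sL, ← fn_sL, ← fn_dL]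
  rfl

theorem fn_lap_pow (m : ℕ) (x : LC G) :
    fn (((lap G) ^ m) x : LC G).1 = ((lF G) ^ m) (fn x.1) := by
  induction m generalizing x with
  | zero => simp
  | succ m ih =>
    rw [pow_succ, pow_succ, Module.End.mul_apply, ← fn_lap, ← ih]
    rfl

variable (G) in
/-- the moments -/
def mo (T : Finset V) (m : ℕ) : ℂ := ((lF G) ^ m) (eF G T) 1 T

theorem inner_lap_pow (m : ℕ) (j : Fin (Fintype.card (Finset V))) :
    ⟪ev G j, ((lap G) ^ m) (ev G j)⟫_ℂ = mo G (sx V j) m := by
  rw [inner_ev]
  unfold mo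
  rw [← fn_ev, ← fn_lap_pow]
  unfold fn
  rw [Equiv.symm_apply_apply]

end

section
variable {V U : Type} {G : SimpleGraph V} {H : SimpleGraph U} [Fintype V] [LinearOrder V] [Fintype U] [LinearOrder U]

attribute [local instance] ordSum

theorem mo_join (T : Finset V) (S : Finset U) (m : ℕ) :
    mo (join G H) (T.disjSum S) m = ∑ ij ∈ Finset.HasAntidiagonal.antidiagonal m, (m.choose ij.1 : ℂ) *
      (mo G T ij.1 * mo H S ij.2) := by
  unfold mo
  rw [eF_join, lF_pow_tn _ _ _ _ _ (CS_eF G T) (CS_eF H S)]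
  refine Finset.sum_congr rfl fun ij _ => ?_
  rw [map_one, map_one, Finset.toLeft_disjSum, Finset.toRight_disjSum]

variable (G) in
/-- the supertrace of the powers of the Laplacian -/
def stg (m : ℕ) : ℂ := ∑ T : Finset V, (-1) ^ T.card * mo G T m

variable (G) in
/-- the supertrace of the powers of the Laplacian with the degree -/
def stn (m : ℕ) : ℂ := ∑ T : Finset V, (-1) ^ T.card * T.card * mo G T m

theorem stg_join (m : ℕ) (h : ∀ k, stg G k = 0) : stg (join G H) m = 0 := by
  unfold stg
  rw [sum_join]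
  have h1 : ∀ (T : Finset V) (S : Finset U), (-1 : ℂ) ^ (T.disjSum S).card * mo (join G H) (T.disjSum S) m =
      ∑ ij ∈ Finset.HasAntidiagonal.antidiagonal m, (m.choose ij.1 : ℂ) *
        (((-1) ^ T.card * mo G T ij.1) * ((-1) ^ S.card * mo H S ij.2)) := by
    intro T S
    rw [mo_join, Finset.card_disjSum, Finset.mul_sum]
    refine Finset.sum_congr rfl fun ij _ => ?_
    rw [pow_add]; ring
  simp only [h1]
  have h2 : ∀ T : Finset V, ∑ S : Finset U, ∑ ij ∈ Finset.HasAntidiagonal.antidiagonal m, (m.choose ij.1 : ℂ) *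
        (((-1) ^ T.card * mo G T ij.1) * ((-1) ^ S.card * mo H S ij.2)) =
      ∑ ij ∈ Finset.HasAntidiagonal.antidiagonal m, (m.choose ij.1 : ℂ) *
        (((-1) ^ T.card * mo G T ij.1) * stg H ij.2) := by
    intro T
    rw [Finset.sum_comm]
    refine Finset.sum_congr rfl fun ij _ => ?_
    rw [← Finset.mul_sum, ← Finset.mul_sum]
    rfl
  rw [Finset.sum_congr rfl fun T _ => h2 T, Finset.sum_comm]
  refine Finset.sum_eq_zero fun ij _ => ?_
  rw [← Finset.mul_sum, ← Finset.sum_mul]
  have h3 := h ij.1
  unfold stg at h3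
  rw [h3, zero_mul, mul_zero]

theorem stn_join (m : ℕ) (h : ∀ k, stg G k = 0) (h' : ∀ k, stg H k = 0) : stn (join G H) m = 0 := by
  unfold stn
  rw [sum_join]
  have h1 : ∀ (T : Finset V) (S : Finset U), (-1 : ℂ) ^ (T.disjSum S).card * (T.disjSum S).card *
      mo (join G H) (T.disjSum S) m =
      ∑ ij ∈ Finset.HasAntidiagonal.antidiagonal m, ((m.choose ij.1 : ℂ) *
        (((-1) ^ T.card * T.card * mo G T ij.1) * ((-1) ^ S.card * mo H S ij.2)) +
        (m.choose ij.1 : ℂ) * (((-1) ^ T.card * mo G T ij.1) * ((-1) ^ S.card * S.card * mo H S ij.2))) := by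
    intro T S
    rw [mo_join, Finset.card_disjSum, Finset.mul_sum]
    refine Finset.sum_congr rfl fun ij _ => ?_
    rw [pow_add]; push_cast; ring
  simp only [h1]
  have h2 : ∀ T : Finset V, ∑ S : Finset U, ∑ ij ∈ Finset.HasAntidiagonal.antidiagonal m, ((m.choose ij.1 : ℂ) *
        (((-1) ^ T.card * T.card * mo G T ij.1) * ((-1) ^ S.card * mo H S ij.2)) +
        (m.choose ij.1 : ℂ) * (((-1) ^ T.card * mo G T ij.1) * ((-1) ^ S.card * S.card * mo H S ij.2))) =
      ∑ ij ∈ Finset.HasAntidiagonal.antidiagonal m, (m.choose ij.1 : ℂ) *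
        (((-1) ^ T.card * mo G T ij.1) * stn H ij.2) := by
    intro T
    rw [Finset.sum_comm]
    refine Finset.sum_congr rfl fun ij _ => ?_
    rw [Finset.sum_add_distrib, ← Finset.mul_sum, ← Finset.mul_sum, ← Finset.mul_sum, ← Finset.mul_sum]
    have h3 := h' ij.2
    unfold stg at h3
    rw [h3, mul_zero, mul_zero, zero_add]
    rfl
  rw [Finset.sum_congr rfl fun T _ => h2 T, Finset.sum_comm]
  refine Finset.sum_eq_zero fun ij _ => ?_
  rw [← Finset.mul_sum, ← Finset.sum_mul]
  have h3 := h ij.1
  unfold stg at h3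
  rw [h3, zero_mul, mul_zero]

end

end Pool.Agent.N504.TL
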