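import Pool.Agent.W907.SG.Defs

/-!
# The torsion in the homology of the quotients of the Davis complex
-/

set_option autoImplicit false

namespace Pool.Agent.N504.TL

open Pool.Agent.W907.SG

/-- An integral cellular `i`-chain of the quotient of the Davis complex of `W G` by the subgroup `H` (which acts
freely and cocompactly), written as an `H`-invariant integral cellular chain of the Davis complex. An `i`-cube is a
coset `w W_T` with `T` a clique with `i` elements; `c w T` is the coefficient of the cube `w W_T` with the orientation
given by the corner `w` and the order of `T`; crossing to the corner `w t` (`t ∈ T`) reverses the orientation. -/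
structure ICh {V : Type} (G : SimpleGraph V) (H : Subgroup (W G)) (i : ℕ) (c : W G → Finset V → ℤ) : Prop where
  /-- invariance -/
  inv : ∀ h ∈ H, ∀ w T, c (h * w) T = c w T
  /-- the degree -/
  deg : ∀ w (T : Finset V), ¬ (G.IsClique (T : Set V) ∧ T.card = i) → c w T = 0
  /-- the orientation -/
  ori : ∀ w (T : Finset V) t, t ∈ T → c (w * (cox G).simple t) T = - c w T

/-- the boundary of a chain -/
def bdc {V : Type} [Fintype V] [LinearOrder V] {A : Type} (c : A → Finset V → ℤ) : A → Finset V → ℤ :=
  fun w T => ∑ v ∈ Tᶜ, sg v T * c w (insert v T)

/-- an integral `i`-cycle of the quotient of the Davis complex by `H`, a positive multiple of which is a boundary -/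
def TCy {V : Type} [Fintype V] [LinearOrder V] (G : SimpleGraph V) (H : Subgroup (W G)) (i : ℕ) : Type :=
  {c : W G → Finset V → ℤ // ICh G H i c ∧ (∀ w T, bdc c w T = 0) ∧
    ∃ m : ℕ, 0 < m ∧ ∃ b, ICh G H (i + 1) b ∧ ∀ w T, bdc b w T = m * c w T}

/-- the order of the torsion subgroup of the `i`-th integral homology group of the quotient of the Davis complex of
`W G` by `H`: the number of classes of the cycles `TCy G H i` modulo the boundaries -/
noncomputable def torN {V : Type} [Fintype V] [LinearOrder V] (G : SimpleGraph V) (H : Subgroup (W G)) (i : ℕ) : ℕ :=
  Nat.card (Quot fun c d : TCy G H i => ∃ b, ICh G H (i + 1) b ∧ ∀ w T, bdc b w T = c.1 w T - d.1 w T)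

/-- A residual chain: a decreasing sequence of normal subgroups of finite index of the right-angled Coxeter group of
`J` with trivial intersection, all of which are contained in the kernels of all homomorphisms to `ℤ/2` (so they act
freely on the Davis complex and are torsion-free). -/
structure RCh {V : Type} (J : SimpleGraph V) (K : ℕ → Subgroup (W J)) : Prop where
  /-- decreasing -/
  anti : Antitone K
  /-- normal -/
  nor : ∀ i, (K i).Normal
  /-- of finite index -/
  fin : ∀ i, (K i).FiniteIndex
  /-- contained in the kernels of the homomorphisms to the group with two elements -/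
  ker : ∀ i, ∀ f : W J →* ℤˣ, ∀ g ∈ K i, f g = 1
  /-- trivial intersection -/
  bot : ∀ g, (∀ i, g ∈ K i) → g = 1

/-- the normalized logarithm of the order of the torsion of the `k`-th integral homology of the `i`-th covering space
in the tower given by the chain `K` of subgroups of the right-angled Coxeter group of `J` -/
noncomputable def trat {V : Type} [Fintype V] [LinearOrder V] (J : SimpleGraph V) (K : ℕ → Subgroup (W J))
    (k i : ℕ) : ℝ :=
  Real.log (torN J (K i) k) / (K i).relIndex (K 0)

end Pool.Agent.N504.TL
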