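import Pool.Agent.N504.TL.LDef
import Pool.Agent.N504.TL.TDef

/-!
# The failure of the torsion growth formula
-/

set_option autoImplicit false

namespace Pool.Agent.N504.TL

open Filter Topology
open Pool.Agent.W907.SG (W L2Van)

/-- The failure of the torsion growth formula for the Davis complex `Σ` of the right-angled Coxeter group `W J`: all
`L²`-Betti numbers of `Σ` vanish, all Laplacians have positive Fuglede-Kadison determinant and the `L²`-torsion is
zero, but there is a residual chain `K` such that the normalized logarithms of the orders of the torsion subgroups of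
the integral homology of `Σ/K i` in the degree `k` are eventually larger than `(1 - ε) * log p * [W : K 0]`, for each
`ε > 0`, and do not converge to `(-1) ^ k` times the `L²`-torsion (for the group `K 0`). -/
structure TFail {V : Type} [Fintype V] [LinearOrder V] (J : SimpleGraph V) (p k : ℕ) : Prop where
  /-- the `L²`-Betti numbers -/
  van : ∀ i, L2Van J i
  /-- the determinants -/
  det : ∀ m, 0 < detC J m
  /-- the `L²`-torsion -/
  rho : rhoC J = 0
  /-- the growth of the torsion -/
  grow : ∃ K : ℕ → Subgroup (W J), RCh J K ∧
    (∀ ε : ℝ, 0 < ε → ∀ᶠ i in atTop, (1 - ε) * Real.log p * (K 0).index ≤ trat J K k i) ∧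
    ¬ Tendsto (trat J K k) atTop (𝓝 ((-1) ^ k * ((K 0).index * rhoC J)))

end Pool.Agent.N504.TL
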