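import Pool.Agent.Helper993.FKDef

/-!
# Determinants of Laplacians of closed subspaces
-/

set_option autoImplicit false

open Pool.Agent.Helper993.FK

noncomputable section

namespace Pool.Agent.N504.TL

variable {E : Type} [NormedAddCommGroup E] [InnerProductSpace ℂ E]

/-- the operator `x ↦ P (D x)` of `K`, where `P` is the orthogonal projection to `K` -/
def cmpK (K : Submodule ℂ E) [CompleteSpace K] (D : E →L[ℂ] E) : K →L[ℂ] K :=
  K.orthogonalProjectionOnto ∘L (D ∘L K.subtypeL)

/-- the operator `2 (D^* D + D D^*)` of a Hilbert space -/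
def opL [CompleteSpace E] (D : E →L[ℂ] E) : E →L[ℂ] E :=
  (2 : ℂ) • (ContinuousLinearMap.adjoint D ∘L D + D ∘L ContinuousLinearMap.adjoint D)

/-- the Fuglede-Kadison determinant of `2 (D^* D + D D^*)` for the operator `cmpK K D` of `K`, for the trace
`S ↦ ∑ j, ⟪P (e j), S (P (e j))⟫` -/
def detK (K : Submodule ℂ E) [CompleteSpace K] (D : E →L[ℂ] E) {r : ℕ} (e : Fin r → E) : ℝ :=
  detOf (fun j => K.orthogonalProjectionOnto (e j)) (opL (cmpK K D))

end Pool.Agent.N504.TL
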