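import Mathlib

/-!
# The enumeration of the subsets
-/

set_option autoImplicit false

namespace Pool.Agent.N504.TL

/-- the enumeration of the subsets of `V` -/
noncomputable def sx (V : Type) [Fintype V] : Fin (Fintype.card (Finset V)) ≃ Finset V :=
  (Fintype.equivFin (Finset V)).symm

end Pool.Agent.N504.TL
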