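import Pool.Agent.N504.TL.Act
import Pool.Agent.N504.TL.SxDef
import Pool.Agent.W907.SG.Defs

/-!
# The `L²`-torsion of the Davis complex
-/

set_option autoImplicit false

open scoped InnerProductSpace

noncomputable section

namespace Pool.Agent.N504.TL

open Pool.Agent.W907.SG Pool.Agent.Helper993.FK

section
variable {V : Type} [Fintype V]

/-- The Hilbert space of the square integrable complex cellular chains (of all degrees) of the Davis complex of
`W G`. The `i`-cubes of the Davis complex are the cosets `w W_T` with `T` a clique with `i` elements. A chain `x` is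
given by the coefficients `coord x j w` of the cubes `w W_T`, `T = sx V j`, with the orientation given by the corner
`w` and the order of `T`; crossing to the corner `w t` (`t ∈ T`) reverses the orientation. -/
def LC (G : SimpleGraph V) : Submodule ℂ (L2Pow (W G) (Fintype.card (Finset V))) where
  carrier := {x | (∀ j w, ¬ G.IsClique (sx V j : Set V) → coord x j w = 0) ∧
    ∀ j w t, t ∈ sx V j → coord x j (w * (cox G).simple t) = - coord x j w}
  add_mem' := by
    rintro x y ⟨h1, h2⟩ ⟨h3, h4⟩
    refine ⟨fun j w h => ?_, fun j w t ht => ?_⟩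
    · rw [coord_add, h1 j w h, h3 j w h, add_zero]
    · rw [coord_add, coord_add, h2 j w t ht, h4 j w t ht]; ring
  zero_mem' := by
    refine ⟨fun j w _ => rfl, fun j w t _ => ?_⟩
    rw [coord_zero, coord_zero, neg_zero]
  smul_mem' := by
    rintro c x ⟨h1, h2⟩
    refine ⟨fun j w h => ?_, fun j w t ht => ?_⟩
    · rw [coord_smul, h1 j w h, mul_zero]
    · rw [coord_smul, coord_smul, h2 j w t ht]; ring

theorem isClosed_LC (G : SimpleGraph V) : IsClosed (LC G : Set (L2Pow (W G) (Fintype.card (Finset V)))) := by
  have h : (LC G : Set (L2Pow (W G) (Fintype.card (Finset V)))) =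
      (⋂ (j) (w) (_ : ¬ G.IsClique (sx V j : Set V)), {x | coord x j w = 0}) ∩
        ⋂ (j) (w) (t) (_ : t ∈ sx V j), {x | coord x j (w * (cox G).simple t) = - coord x j w} := by
    ext x
    simp only [Set.mem_inter_iff, Set.mem_iInter, Set.mem_setOf_eq]
    rfl
  rw [h]
  refine IsClosed.inter ?_ ?_
  · refine isClosed_iInter fun j => isClosed_iInter fun w => isClosed_iInter fun _ => ?_
    exact isClosed_eq (coord_continuous j w) continuous_const
  · refine isClosed_iInter fun j => isClosed_iInter fun w => isClosed_iInter fun t => isClosed_iInter fun _ => ?_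
    exact isClosed_eq (coord_continuous j _) (coord_continuous j w).neg

instance instCompleteLC (G : SimpleGraph V) : CompleteSpace (LC G) := (isClosed_LC G).completeSpace_coe

/-- The orthogonal projection of the unit vector at `(sx V j, 1)` to `LC G`. The von Neumann trace (for the group
`W G`) of an equivariant operator `S` of `LC G` is the sum of the `⟪ev G j, S (ev G j)⟫`. -/
def ev (G : SimpleGraph V) (j : Fin (Fintype.card (Finset V))) : LC G := (LC G).orthogonalProjectionOnto (unitVec j)

open Classical in
/-- the vectors `ev G j` of degree `n` -/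
def evn (G : SimpleGraph V) (n : ℕ) (j : Fin (Fintype.card (Finset V))) : LC G :=
  if (sx V j).card = n then ev G j else 0

end

section
variable {V : Type} [Fintype V] [LinearOrder V] (G : SimpleGraph V)

/-- the matrix of the boundary operator: the coefficient of `w W_T` in the boundary of `x` is the sum over `v ∉ T` of
`(-1)^{#{u ∈ T : u < v}}` times the coefficient of `w W_{T ∪ v}` in `x` -/
def dM : Matrix (Fin (Fintype.card (Finset V))) (Fin (Fintype.card (Finset V))) (MonoidAlgebra ℚ (W G)) :=
  Matrix.of fun i j => ∑ v ∈ (sx V j)ᶜ,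
    if sx V i = insert v (sx V j) then MonoidAlgebra.single 1 ((sg v (sx V j) : ℤ) : ℚ) else 0

theorem coord_dM (x : L2Pow (W G) (Fintype.card (Finset V))) (j : Fin (Fintype.card (Finset V))) (w : W G) :
    coord (rMul (dM G) x) j w =
      ∑ v ∈ (sx V j)ᶜ, (sg v (sx V j) : ℂ) * coord x ((sx V).symm (insert v (sx V j))) w := by
  rw [coord_rMul]
  simp only [dM, Matrix.of_apply, act_sum]
  rw [Finset.sum_comm]
  refine Finset.sum_congr rfl fun v _ => ?_
  rw [Finset.sum_eq_single ((sx V).symm (insert v (sx V j)))]
  · rw [if_pos (by simp), act_single]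
    simp
  · intro i _ hi
    rw [if_neg, act_zero]
    intro h
    exact hi (by rw [← h, Equiv.symm_apply_apply])
  · simp

theorem dM_mem (x : L2Pow (W G) (Fintype.card (Finset V))) (hx : x ∈ LC G) : rMul (dM G) x ∈ LC G := by
  obtain ⟨h1, h2⟩ := hx
  refine ⟨fun j w hj => ?_, fun j w t ht => ?_⟩
  · rw [coord_dM]
    refine Finset.sum_eq_zero fun v _ => ?_
    rw [h1, mul_zero]
    intro h
    apply hj
    rw [Equiv.apply_symm_apply] at h
    exact h.subset (by simp)
  · rw [coord_dM, coord_dM, ← Finset.sum_neg_distrib]
    refine Finset.sum_congr rfl fun v _ => ?_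
    rw [h2 _ _ _ (by rw [Equiv.apply_symm_apply]; exact Finset.mem_insert_of_mem ht)]
    ring

/-- the boundary operator (of degree `- 1`) -/
def dL : LC G →L[ℂ] LC G :=
  ((rMul (dM G)).comp (LC G).subtypeL).codRestrict (LC G) fun x => dM_mem G x.1 x.2

/-- The Laplacian (in all degrees). For the inner product for which the cubes are orthonormal the adjoint of the
boundary operator is twice the adjoint of `dL G`, because the inner product of `LC G` counts an `i`-cube `2 ^ i`
times. -/
def lap : LC G →L[ℂ] LC G :=
  (2 : ℂ) • ((ContinuousLinearMap.adjoint (dL G)) ∘L (dL G) + (dL G) ∘L (ContinuousLinearMap.adjoint (dL G)))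

/-- the Fuglede-Kadison determinant (for the group `W G`) of the Laplacian in degree `n` -/
def detn (n : ℕ) : ℝ := detOf (evn G n) (lap G)

/-- The `L²`-torsion (for the group `W G`) of the Davis complex. The `L²`-torsion for a subgroup `K` of finite index
is `[W G : K]` times it. -/
def rho : ℝ := -(1 / 2) * ∑ n ∈ Finset.range (Fintype.card V + 1), (-1) ^ n * n * Real.log (detn G n)

end

end Pool.Agent.N504.TL
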