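import Pool.Agent.N504.TL.GDef
import Pool.Agent.N504.TL.TorDef

/-!
# The `L²`-torsion of the Davis complex
-/

set_option autoImplicit false

noncomputable section

namespace Pool.Agent.N504.TL

open Pool.Agent.W907.SG Pool.Agent.Helper993.FK

section
variable {V : Type} [Fintype V] (G : SimpleGraph V)

/-- The vector `x` (of numbers `coord x j w`) is a chain: a square integrable complex cellular chain (with components of
all degrees) of the Davis complex of `W G`. The `i`-cubes of the Davis complex are the cosets `w W_T` with `T` a clique
with `i` elements. `coord x j w` is the coefficient of the cube `w W_T`, `T = sx V j`, with the orientation given by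
the corner `w` and the order of `T`; crossing to the corner `w t` (`t ∈ T`) reverses the orientation. -/
def IsL2 (x : L2Pow (W G) (Fintype.card (Finset V))) : Prop :=
  (∀ j w, ¬ G.IsClique (sx V j : Set V) → coord x j w = 0) ∧
    ∀ j w t, t ∈ sx V j → coord x j (w * (cox G).simple t) = - coord x j w

/-- The Hilbert space of all chains. -/
def LD : Submodule ℂ (L2Pow (W G) (Fintype.card (Finset V))) := Submodule.span ℂ {x | IsL2 G x}

theorem LD_eq : LD G = LC G := by
  refine le_antisymm (Submodule.span_le.2 fun x hx => hx) fun x hx => Submodule.subset_span hx

instance instLD : CompleteSpace (LD G) := by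
  rw [LD_eq]
  exact instCompleteLC G

open Classical in
/-- the unit vector at the pair of `j` and the unit element of `W G`, if `sx V j` has `n` elements, and otherwise zero -/
def uv (n : ℕ) (j : Fin (Fintype.card (Finset V))) : L2Pow (W G) (Fintype.card (Finset V)) :=
  if (sx V j).card = n then unitVec j else 0

end

section
variable {V : Type} [Fintype V] [LinearOrder V] (G : SimpleGraph V)

/-- `D` is the boundary operator: the coefficient of `w W_T` in `D x` is the sum over `v ∉ T` of
`(-1)^{#{u ∈ T : u < v}}` times the coefficient of `w W_{T ∪ v}` in `x` -/
def IsBd (D : L2Pow (W G) (Fintype.card (Finset V)) →L[ℂ] L2Pow (W G) (Fintype.card (Finset V))) : Prop :=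
  ∀ x j w, coord (D x) j w =
    ∑ v ∈ (sx V j)ᶜ, (sg v (sx V j) : ℂ) * coord x ((sx V).symm (insert v (sx V j))) w

theorem exists_bd : ∃ D, IsBd G D := ⟨rMul (dM G), fun x j w => coord_dM G x j w⟩

/-- the boundary operator (which maps chains to chains) -/
def bdC : L2Pow (W G) (Fintype.card (Finset V)) →L[ℂ] L2Pow (W G) (Fintype.card (Finset V)) :=
  (exists_bd G).choose

/-- The Fuglede-Kadison determinant (for the group `W G`) of the Laplacian in degree `n`. For the inner product for
which the cubes are orthonormal the adjoint of the boundary operator `D` is twice the adjoint for the inner product of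
`LD G`, because the latter counts an `i`-cube `2 ^ i` times. So the Laplacian is `2 (D^* D + D D^*)`. -/
def detC (n : ℕ) : ℝ := detK (LD G) (bdC G) (uv G n)

/-- The `L²`-torsion (for the group `W G`) of the Davis complex. The `L²`-torsion for a subgroup `K` of finite index
is `[W G : K]` times it. -/
def rhoC : ℝ := -(1 / 2) * ∑ n ∈ Finset.range (Fintype.card V + 1), (-1) ^ n * n * Real.log (detC G n)

end

end Pool.Agent.N504.TL
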