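import Pool.Agent.N504.TL.TorDef
import Pool.Agent.W461.SG.NIL

/-!
# Finite parabolic subgroups and the projection to the chains
-/

set_option autoImplicit false

open scoped InnerProductSpace

noncomputable section

namespace Pool.Agent.N504.TL

open Pool.Agent.W907.SG Pool.Agent.Helper993.FK Pool.Agent.W461.SGN

section
variable {V : Type} (G : SimpleGraph V)

/-- the parabolic subgroup -/
def WT (T : Finset V) : Subgroup (W G) := Subgroup.closure ((cox G).simple '' (T : Set V))

variable {G}

theorem simple_mem_WT {T : Finset V} {t : V} (ht : t ∈ T) : (cox G).simple t ∈ WT G T :=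
  Subgroup.subset_closure ⟨t, ht, rfl⟩

theorem WT_mono {T S : Finset V} (h : T ⊆ S) : WT G T ≤ WT G S :=
  Subgroup.closure_mono (Set.image_mono (by exact_mod_cast h))

theorem comm_WT {T : Finset V} {t : V} (h : ∀ s ∈ T, s = t ∨ G.Adj t s) {u : W G} (hu : u ∈ WT G T) :
    Commute ((cox G).simple t) u := by
  refine Subgroup.closure_induction (p := fun u _ => Commute ((cox G).simple t) u) ?_ ?_ ?_ ?_ hu
  · rintro _ ⟨s, hs, rfl⟩
    rcases h s hs with rfl | h
    · exact Commute.refl _
    · exact simple_comm G t s h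
  · exact Commute.one_right _
  · intro x y _ _ hx hy
    exact hx.mul_right hy
  · intro x _ hx
    exact hx.inv_right

theorem finite_WT {T : Finset V} (h : G.IsClique (T : Set V)) : (WT G T : Set (W G)).Finite := by
  classical
  induction T using Finset.induction_on with
  | empty =>
    have : (WT G ∅ : Set (W G)) = {1} := by
      unfold WT
      rw [Finset.coe_empty, Set.image_empty, Subgroup.closure_empty]
      rfl
    rw [this]
    exact Set.finite_singleton 1
  | insert t T ht ih =>
    have hT : G.IsClique (T : Set V) := h.subset (by simp)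
    have hadj : ∀ s ∈ T, s = t ∨ G.Adj t s := fun s hs => Or.inr (h (by simp) (by simp [hs]) (by
      rintro rfl; exact ht hs))
    have hF := ih hT
    have hFt := hF.image (fun u => u * (cox G).simple t)
    refine (hF.union hFt).subset fun u hu => ?_
    have hss := simple_mul_self G t
    refine Subgroup.closure_induction (p := fun u _ => u ∈ (WT G T : Set (W G)) ∪
      (fun u => u * (cox G).simple t) '' (WT G T : Set (W G))) ?_ ?_ ?_ ?_ hu
    · rintro _ ⟨s, hs, rfl⟩
      rw [Finset.coe_insert, Set.mem_insert_iff] at hs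
      rcases hs with rfl | hs
      · exact Or.inr ⟨1, (WT G T).one_mem, one_mul _⟩
      · exact Or.inl (simple_mem_WT hs)
    · exact Or.inl (WT G T).one_mem
    · intro x y _ _ hx hy
      rcases hx with hx | ⟨x', hx, rfl⟩
      · rcases hy with hy | ⟨y', hy, rfl⟩
        · exact Or.inl ((WT G T).mul_mem hx hy)
        · exact Or.inr ⟨x * y', (WT G T).mul_mem hx hy, mul_assoc _ _ _⟩
      · have hx' : x' ∈ WT G T := hx
        rcases hy with hy | ⟨y', hy, rfl⟩
        · refine Or.inr ⟨x' * y, (WT G T).mul_mem hx hy, ?_⟩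
          show x' * y * (cox G).simple t = x' * (cox G).simple t * y
          rw [mul_assoc, mul_assoc, (comm_WT hadj hy).eq]
        · refine Or.inl ?_
          have : x' * (cox G).simple t * (y' * (cox G).simple t) = x' * y' := by
            rw [mul_assoc, ← mul_assoc ((cox G).simple t), (comm_WT hadj hy).eq, mul_assoc y', hss, mul_one]
          show x' * (cox G).simple t * (y' * (cox G).simple t) ∈ (WT G T : Set (W G))
          rw [this]
          exact (WT G T).mul_mem hx hy
    · intro x _ hx
      rcases hx with hx | ⟨x', hx, rfl⟩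
      · exact Or.inl ((WT G T).inv_mem hx)
      · refine Or.inr ⟨x'⁻¹, (WT G T).inv_mem hx, ?_⟩
        show x'⁻¹ * (cox G).simple t = (x' * (cox G).simple t)⁻¹
        have h1 : ((cox G).simple t)⁻¹ = (cox G).simple t := inv_eq_of_mul_eq_one_left hss
        rw [mul_inv_rev, h1]
        exact (comm_WT hadj ((WT G T).inv_mem hx)).eq.symm

open Classical in
/-- the elements of the parabolic subgroup, for a clique -/
def FT (G : SimpleGraph V) (T : Finset V) : Finset (W G) :=
  if h : G.IsClique (T : Set V) then (finite_WT h).toFinset else ∅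

theorem mem_FT {T : Finset V} (h : G.IsClique (T : Set V)) {u : W G} : u ∈ FT G T ↔ u ∈ WT G T := by
  unfold FT
  rw [dif_pos h, Set.Finite.mem_toFinset]
  rfl

theorem FT_not {T : Finset V} (h : ¬ G.IsClique (T : Set V)) : FT G T = ∅ := by
  unfold FT
  rw [dif_neg h]

/-- the sign character -/
def sT (G : SimpleGraph V) (T : Finset V) (w : W G) : ℤ := ((∏ v ∈ T, th G w v : ℤˣ) : ℤ)

theorem sT_mul (T : Finset V) (w u : W G) : sT G T (w * u) = sT G T w * sT G T u := by
  unfold sT
  rw [← Units.val_mul, ← Finset.prod_mul_distrib, map_mul]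
  rfl

theorem sT_one (T : Finset V) : sT G T (1 : W G) = 1 := by
  unfold sT
  rw [map_one]
  simp

theorem sT_sq (T : Finset V) (w : W G) : sT G T w * sT G T w = 1 := by
  unfold sT
  rcases Int.units_eq_one_or (∏ v ∈ T, th G w v) with h | h <;> simp [h]

theorem sT_inv (T : Finset V) (w : W G) : sT G T w⁻¹ = sT G T w := by
  have h1 : sT G T w⁻¹ * sT G T w = 1 := by rw [← sT_mul, inv_mul_cancel, sT_one]
  have h2 := sT_sq T w
  calc sT G T w⁻¹ = sT G T w⁻¹ * (sT G T w * sT G T w) := by rw [h2, mul_one]
    _ = sT G T w := by rw [← mul_assoc, h1, one_mul]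

theorem sT_simple {T : Finset V} {t : V} (ht : t ∈ T) : sT G T ((cox G).simple t) = -1 := by
  classical
  unfold sT
  have : ∏ v ∈ T, th G ((cox G).simple t) v = -1 := by
    rw [Finset.prod_eq_single t]
    · rw [th_simple]; simp
    · intro b _ hb
      rw [th_simple]; simp [hb]
    · intro h; exact absurd ht h
  rw [this]; rfl

end

section
variable {V : Type} [Fintype V] {G : SimpleGraph V}

theorem LC_mul {x : L2Pow (W G) (Fintype.card (Finset V))} (hx : x ∈ LC G) (j : Fin (Fintype.card (Finset V)))
    (w : W G) {u : W G} (hu : u ∈ WT G (sx V j)) :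
    coord x j (w * u) = (sT G (sx V j) u : ℂ) * coord x j w := by
  have key : ∀ w : W G, coord x j (w * u) = (sT G (sx V j) u : ℂ) * coord x j w := by
    refine Subgroup.closure_induction (p := fun u _ => ∀ w : W G,
      coord x j (w * u) = (sT G (sx V j) u : ℂ) * coord x j w) ?_ ?_ ?_ ?_ hu
    · rintro _ ⟨t, ht, rfl⟩ w
      rw [hx.2 j w t ht, sT_simple ht]
      push_cast; ring
    · intro w
      rw [mul_one, sT_one]; push_cast; ring
    · intro a b _ _ ha hb w
      rw [← mul_assoc, hb, ha, sT_mul]
      push_cast; ring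
    · intro a _ ha w
      have h := ha (w * a⁻¹)
      rw [inv_mul_cancel_right] at h
      rw [sT_inv, h, ← mul_assoc]
      have h2 := sT_sq (G := G) (sx V j) a
      have h3 : (sT G (sx V j) a : ℂ) * (sT G (sx V j) a : ℂ) = 1 := by exact_mod_cast h2
      rw [h3, one_mul]
  exact key w

open Classical in
/-- the matrix of the projection to the chains -/
def pM (G : SimpleGraph V) :
    Matrix (Fin (Fintype.card (Finset V))) (Fin (Fintype.card (Finset V))) (MonoidAlgebra ℚ (W G)) :=
  Matrix.of fun i j => if i = j then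
    ∑ u ∈ FT G (sx V j), MonoidAlgebra.single u ((sT G (sx V j) u : ℚ) / (FT G (sx V j)).card) else 0

theorem coord_pM (x : L2Pow (W G) (Fintype.card (Finset V))) (j : Fin (Fintype.card (Finset V))) (w : W G) :
    coord (rMul (pM G) x) j w =
      ∑ u ∈ FT G (sx V j), (sT G (sx V j) u : ℂ) / (FT G (sx V j)).card * coord x j (w * u⁻¹) := by
  classical
  rw [coord_rMul, Finset.sum_eq_single j]
  · unfold pM
    rw [Matrix.of_apply, if_pos rfl, act_sum]
    refine Finset.sum_congr rfl fun u _ => ?_
    rw [act_single]
    push_cast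
    rfl
  · intro i _ hi
    unfold pM
    rw [Matrix.of_apply, if_neg hi, act_zero]
  · simp

theorem card_FT_pos {T : Finset V} (h : G.IsClique (T : Set V)) : 0 < (FT G T).card :=
  Finset.card_pos.mpr ⟨1, (mem_FT h).mpr (WT G T).one_mem⟩

theorem pM_mem (x : L2Pow (W G) (Fintype.card (Finset V))) : rMul (pM G) x ∈ LC G := by
  refine ⟨fun j w hj => ?_, fun j w t ht => ?_⟩
  · rw [coord_pM, FT_not hj, Finset.sum_empty]
  · by_cases hj : G.IsClique (sx V j : Set V)
    · rw [coord_pM, coord_pM, ← Finset.sum_neg_distrib]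
      have hss := simple_mul_self G t
      have hti : ((cox G).simple t)⁻¹ = (cox G).simple t := inv_eq_of_mul_eq_one_left hss
      refine Finset.sum_bij' (fun u _ => (cox G).simple t * u) (fun u _ => (cox G).simple t * u) ?_ ?_ ?_ ?_ ?_
      · intro u hu
        rw [mem_FT hj] at hu ⊢
        exact (WT G _).mul_mem (simple_mem_WT ht) hu
      · intro u hu
        rw [mem_FT hj] at hu ⊢
        exact (WT G _).mul_mem (simple_mem_WT ht) hu
      · intro u _
        rw [← mul_assoc, hss, one_mul]
      · intro u _
        rw [← mul_assoc, hss, one_mul]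
      · intro u hu
        have hc : Commute ((cox G).simple t) u := comm_WT (fun s hs => by
          by_cases h : s = t
          · exact Or.inl h
          · exact Or.inr (hj (by exact_mod_cast ht) (by exact_mod_cast hs) (Ne.symm h))) ((mem_FT hj).mp hu)
        rw [sT_mul, sT_simple ht, hc.eq, mul_inv_rev, hti, mul_assoc]
        push_cast
        ring
    · rw [coord_pM, coord_pM, FT_not hj]
      simp

theorem pM_eq {x : L2Pow (W G) (Fintype.card (Finset V))} (hx : x ∈ LC G) : rMul (pM G) x = x := by
  apply coord_ext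
  intro j w
  rw [coord_pM]
  by_cases hj : G.IsClique (sx V j : Set V)
  · have h0 : ((FT G (sx V j)).card : ℂ) ≠ 0 := by exact_mod_cast (card_FT_pos hj).ne'
    have h1 : ∀ u ∈ FT G (sx V j), (sT G (sx V j) u : ℂ) / (FT G (sx V j)).card * coord x j (w * u⁻¹) =
        1 / (FT G (sx V j)).card * coord x j w := by
      intro u hu
      rw [LC_mul hx j w ((WT G _).inv_mem ((mem_FT hj).mp hu)), sT_inv]
      have h3 : (sT G (sx V j) u : ℂ) * (sT G (sx V j) u : ℂ) = 1 := by exact_mod_cast sT_sq (G := G) (sx V j) u
      rw [← mul_assoc, div_mul_eq_mul_div, h3]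
    rw [Finset.sum_congr rfl h1, Finset.sum_const, nsmul_eq_mul]
    field_simp
  · rw [FT_not hj, Finset.sum_empty, hx.1 j w hj]

theorem pM_adj : ContinuousLinearMap.adjoint (rMul (pM G)) = rMul (pM G) := by
  classical
  rw [adjoint_rMul]
  congr 1
  ext1 i j
  show invol (pM G j i) = pM G i j
  unfold pM
  rw [Matrix.of_apply, Matrix.of_apply]
  by_cases h : i = j
  · subst h
    rw [if_pos rfl]
    unfold invol
    have hmap : ∀ (S : Finset (W G)) (f : W G → ℚ), MonoidAlgebra.mapDomain (fun g : W G => g⁻¹)
        (∑ u ∈ S, MonoidAlgebra.single u (f u)) = ∑ u ∈ S, MonoidAlgebra.single u⁻¹ (f u) := by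
      intro S f
      induction S using Finset.induction_on with
      | empty => simp [MonoidAlgebra.mapDomain_zero]
      | insert a S ha ih =>
        rw [Finset.sum_insert ha, Finset.sum_insert ha, MonoidAlgebra.mapDomain_add, ih,
          MonoidAlgebra.mapDomain_single]
    rw [hmap]
    by_cases hj : G.IsClique (sx V i : Set V)
    · refine Finset.sum_bij' (fun u _ => u⁻¹) (fun u _ => u⁻¹) ?_ ?_ ?_ ?_ ?_
      · intro u hu
        rw [mem_FT hj] at hu ⊢
        exact (WT G _).inv_mem hu
      · intro u hu
        rw [mem_FT hj] at hu ⊢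
        exact (WT G _).inv_mem hu
      · intro u _; exact inv_inv u
      · intro u _; exact inv_inv u
      · intro u _
        rw [sT_inv]
    · rw [FT_not hj]; simp
  · rw [if_neg h, if_neg (Ne.symm h)]
    unfold invol
    rw [MonoidAlgebra.mapDomain_zero]

theorem proj_eq (x : L2Pow (W G) (Fintype.card (Finset V))) :
    ((LC G).orthogonalProjectionOnto x : L2Pow (W G) (Fintype.card (Finset V))) = rMul (pM G) x := by
  rw [← Submodule.starProjection_apply]
  refine Submodule.eq_starProjection_of_mem_of_inner_eq_zero (pM_mem x) fun y hy => ?_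
  have h := ContinuousLinearMap.adjoint_inner_right (rMul (pM G)) x y
  rw [pM_adj, pM_eq hy] at h
  exact (inner_sub_left _ _ _).trans (sub_eq_zero.mpr h)

theorem inner_ev (j : Fin (Fintype.card (Finset V))) (x : LC G) :
    ⟪ev G j, x⟫_ℂ = coord (x : L2Pow (W G) (Fintype.card (Finset V))) j 1 := by
  rw [← inner_unitVec]
  have h := ContinuousLinearMap.adjoint_inner_right (rMul (pM G)) (unitVec j) x.1
  rw [pM_adj, pM_eq x.2, ← proj_eq] at h
  exact h.symm

end

end Pool.Agent.N504.TL
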