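import Pool.Agent.N504.TL.Det
import Pool.Agent.N504.TG.Grp

/-!
# The determinants are positive and the torsion of products vanishes
-/

set_option autoImplicit false

open scoped InnerProductSpace Topology CompactlySupported

noncomputable section

namespace Pool.Agent.N504.TL

open Pool.Agent.W907.SG Pool.Agent.Helper993.FK Pool.Agent.W461.SGN Pool.Agent.N504.TG MeasureTheory

section
variable {V : Type} [Fintype V] [LinearOrder V] {G : SimpleGraph V}

omit [LinearOrder V] in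
theorem norm_ev_le (j : Fin (Fintype.card (Finset V))) : ‖ev G j‖ ≤ 1 := by
  have h := (LC G).norm_orthogonalProjectionOnto_apply_le (unitVec j)
  rw [norm_unitVec] at h
  exact h

omit [LinearOrder V] in
theorem norm_evn_le (n : ℕ) (j : Fin (Fintype.card (Finset V))) : ‖evn G n j‖ ≤ 1 := by
  unfold evn
  split_ifs
  · exact norm_ev_le j
  · rw [norm_zero]; exact zero_le_one

omit [LinearOrder V] in
theorem PL_unit (j : Fin (Fintype.card (Finset V))) : PL G (unitVec j) = ev G j :=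
  Subtype.ext (proj_eq _).symm

variable (G) in
/-- the square of the Laplacian -/
def T2 : LC G →L[ℂ] LC G := (ContinuousLinearMap.adjoint (lap G)) ∘L (lap G)

theorem T2_nonneg : 0 ≤ T2 G := adjoint_comp_nonneg _

theorem T2_eq : T2 G = (lap G) ^ 2 := by
  unfold T2
  rw [lap_adj, pow_two]
  rfl

theorem T2_pow (k : ℕ) : (T2 G) ^ k = (lap G) ^ (2 * k) := by
  rw [T2_eq, pow_mul]

theorem T2_inj (hinj : ∀ x : LC G, lap G x = 0 → x = 0) (x : LC G) (h : T2 G x = 0) : x = 0 :=
  hinj x (ker_adjoint_comp _ x h)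

variable (G) in
/-- the square of the integral operator -/
def A2 : L2Pow (W G) (Fintype.card (Finset V)) →L[ℂ] L2Pow (W G) (Fintype.card (Finset V)) :=
  (ContinuousLinearMap.adjoint (rMul ((aZ G).map toQ))) ∘L (rMul ((aZ G).map toQ))

theorem A2_nonneg : 0 ≤ A2 G := adjoint_comp_nonneg _

theorem PL_add (x y : L2Pow (W G) (Fintype.card (Finset V))) : PL G (x + y) = PL G x + PL G y := by
  apply Subtype.ext
  show rMul (pM G) (x + y) = rMul (pM G) x + rMul (pM G) y
  rw [map_add]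

theorem aZ_split (b : L2Pow (W G) (Fintype.card (Finset V))) (a : LC G) (hb : PL G b = 0) :
    rMul ((aZ G).map toQ) (b + a.1) = (NN G : ℂ) • (b + (lap G a).1) := by
  rw [aZ_apply, PL_add, hb, PL_coe, zero_add, add_sub_cancel_right, smul_add]

theorem A2_split (b : L2Pow (W G) (Fintype.card (Finset V))) (a : LC G) (hb : PL G b = 0) :
    A2 G (b + a.1) = ((NN G : ℂ) ^ 2) • (b + (T2 G a).1) := by
  unfold A2
  rw [aZ_adj, ContinuousLinearMap.comp_apply, aZ_split b a hb, map_smul, aZ_split b _ hb, smul_smul, ← pow_two]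
  congr 3
  rw [T2_eq, pow_two]
  rfl

theorem A2_pow_split (k : ℕ) (b : L2Pow (W G) (Fintype.card (Finset V))) (a : LC G) (hb : PL G b = 0) :
    ((A2 G) ^ k) (b + a.1) = (((NN G : ℂ) ^ 2) ^ k) • (b + (((T2 G) ^ k) a).1) := by
  induction k with
  | zero => rw [pow_zero, pow_zero, pow_zero, one_smul]; rfl
  | succ k ih =>
    have e1 : ((A2 G) ^ (k + 1)) (b + a.1) = A2 G (((A2 G) ^ k) (b + a.1)) := by rw [pow_succ']; rfl
    have e2 : ((T2 G) ^ (k + 1)) a = T2 G (((T2 G) ^ k) a) := by rw [pow_succ']; rfl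
    rw [e1, ih, map_smul, A2_split b _ hb, smul_smul, e2, pow_succ ((NN G : ℂ) ^ 2) k]

theorem unit_split (j : Fin (Fintype.card (Finset V))) :
    (unitVec j : L2Pow (W G) (Fintype.card (Finset V))) = (unitVec j - (ev G j).1) + (ev G j).1 :=
  (sub_add_cancel _ _).symm

theorem PL_rest (j : Fin (Fintype.card (Finset V))) : PL G (unitVec j - (ev G j).1) = 0 := by
  apply Subtype.ext
  show rMul (pM G) (unitVec j - (ev G j).1) = 0
  rw [map_sub, pM_eq (ev G j).2]
  have h : rMul (pM G) (unitVec j) = (ev G j).1 := (proj_eq _).symm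
  rw [h, sub_self]

theorem inner_A2_pow (k : ℕ) (j : Fin (Fintype.card (Finset V))) :
    (⟪(unitVec j : L2Pow (W G) (Fintype.card (Finset V))), ((A2 G) ^ k) (unitVec j)⟫_ℂ).re =
      ((NN G : ℝ) ^ 2) ^ k * ((1 - (⟪ev G j, ev G j⟫_ℂ).re) + (⟪ev G j, ((T2 G) ^ k) (ev G j)⟫_ℂ).re) := by
  have h1 : ((A2 G) ^ k) (unitVec j : L2Pow (W G) (Fintype.card (Finset V))) =
      (((NN G : ℂ) ^ 2) ^ k) • ((unitVec j - (ev G j).1) + (((T2 G) ^ k) (ev G j)).1) := by
    conv_lhs => rw [unit_split j]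
    exact A2_pow_split k _ _ (PL_rest j)
  have h2 : ∀ z : LC G, ⟪(unitVec j : L2Pow (W G) (Fintype.card (Finset V))), z.1⟫_ℂ = ⟪ev G j, z⟫_ℂ := by
    intro z
    rw [inner_ev, inner_unitVec]
  rw [h1, ismulr, iaddr, isubr, h2, h2]
  have h3 : ⟪(unitVec j : L2Pow (W G) (Fintype.card (Finset V))), unitVec j⟫_ℂ = 1 := by
    classical
    rw [inner_unitVec, coord_unitVec]
    simp
  rw [h3]
  have h4 : (((NN G : ℂ) ^ 2) ^ k) = ((((NN G : ℝ) ^ 2) ^ k : ℝ) : ℂ) := by push_cast; rfl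
  rw [h4, Complex.re_ofReal_mul]
  simp

/-- comparison of the traces -/
theorem compare {h : ℝ → ℝ} (hh : Continuous h) :
    traceVal unitVec (A2 G) h = traceVal (ev G) (T2 G) (fun x => h ((NN G : ℝ) ^ 2 * x)) +
      (∑ j, (1 - (⟪ev G j, ev G j⟫_ℂ).re)) * h ((NN G : ℝ) ^ 2) := by
  set c : ℝ := (NN G : ℝ) ^ 2 with hc
  have hc0 : 0 ≤ c := by positivity
  set b : ℝ := ∑ j, (1 - (⟪ev G j, ev G j⟫_ℂ).re) with hb
  have key := weier (fun h => traceVal unitVec (A2 G) h - (traceVal (ev G) (T2 G) (fun x => h (c * x)) + b * h c))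
    (fun f g hf hg => by
      show traceVal unitVec (A2 G) (fun x => f x + g x) -
        (traceVal (ev G) (T2 G) (fun x => f (c * x) + g (c * x)) + b * (f c + g c)) = _
      rw [tv_add _ _ hf hg, tv_add (f := fun x => f (c * x)) (g := fun x => g (c * x)) _ _
        (hf.comp (continuous_const.mul continuous_id)) (hg.comp (continuous_const.mul continuous_id))]
      ring)
    (fun a k => by
      show traceVal unitVec (A2 G) (fun x => a * x ^ k) -
        (traceVal (ev G) (T2 G) (fun x => a * (c * x) ^ k) + b * (a * c ^ k)) = 0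
      have e1 : (fun x : ℝ => a * (c * x) ^ k) = fun x => (a * c ^ k) * x ^ k := by
        funext x; rw [mul_pow]; ring
      rw [e1, tv_monomial _ _ A2_nonneg, tv_monomial _ _ T2_nonneg,
        Finset.sum_congr rfl fun j _ => inner_A2_pow k j, ← Finset.mul_sum, Finset.sum_add_distrib]
      ring)
    (C := (Fintype.card (Finset V) : ℝ) + (Fintype.card (Finset V) : ℝ) + |b|)
    (K := ‖A2 G‖ + c * ‖T2 G‖ + c)
    (fun f g hf hg ε hε hfg => by
      have h1 := traceVal_near unitVec (fun i => (norm_unitVec i).le) (A2 G) A2_nonneg le_rfl hf hg hε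
        (fun x hx => hfg x ⟨hx.1, hx.2.trans (by nlinarith [norm_nonneg (T2 G)])⟩)
      have h2 := traceVal_near (ev G) norm_ev_le (T2 G) T2_nonneg le_rfl
        (f := fun x => f (c * x)) (g := fun x => g (c * x))
        (hf.comp (continuous_const.mul continuous_id)) (hg.comp (continuous_const.mul continuous_id)) hε
        (fun x hx => hfg (c * x) ⟨mul_nonneg hc0 hx.1,
          (mul_le_mul_of_nonneg_left hx.2 hc0).trans (by nlinarith [norm_nonneg (A2 G)])⟩)
      have h3 := hfg c ⟨hc0, by nlinarith [norm_nonneg (A2 G), norm_nonneg (T2 G), mul_nonneg hc0 (norm_nonneg (T2 G))]⟩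
      have h4 : |b * (f c - g c)| ≤ |b| * ε := by
        rw [abs_mul]
        exact mul_le_mul_of_nonneg_left h3 (abs_nonneg _)
      have h5 : (traceVal unitVec (A2 G) f - (traceVal (ev G) (T2 G) (fun x => f (c * x)) + b * f c)) -
          (traceVal unitVec (A2 G) g - (traceVal (ev G) (T2 G) (fun x => g (c * x)) + b * g c)) =
          (traceVal unitVec (A2 G) f - traceVal unitVec (A2 G) g) -
          (traceVal (ev G) (T2 G) (fun x => f (c * x)) - traceVal (ev G) (T2 G) (fun x => g (c * x))) -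
          b * (f c - g c) := by ring
      show |(traceVal unitVec (A2 G) f - (traceVal (ev G) (T2 G) (fun x => f (c * x)) + b * f c)) -
          (traceVal unitVec (A2 G) g - (traceVal (ev G) (T2 G) (fun x => g (c * x)) + b * g c))| ≤ _
      rw [h5]
      refine (abs_sub _ _).trans ?_
      refine (add_le_add ((abs_sub _ _).trans (add_le_add h1 h2)) h4).trans (le_of_eq ?_)
      ring) hh
  have key' : traceVal unitVec (A2 G) h - (traceVal (ev G) (T2 G) (fun x => h (c * x)) + b * h c) = 0 := key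
  linarith

omit [LinearOrder V] in
theorem rest_nonneg : 0 ≤ ∑ j, (1 - (⟪ev G j, ev G j⟫_ℂ).re) := by
  refine Finset.sum_nonneg fun j _ => ?_
  have h1 := norm_ev_le (G := G) j
  have h2 : ‖ev G j‖ ^ 2 = (⟪ev G j, ev G j⟫_ℂ).re := norm_sq_eq_re_inner (𝕜 := ℂ) (ev G j)
  have h3 := norm_nonneg (ev G j)
  nlinarith

/-- the logarithm is integrable for the spectral measures of the Laplacian -/
theorem log_int (hinj : ∀ x : LC G, lap G x = 0 → x = 0) (N : ℕ → Subgroup (W G)) [∀ i, (N i).Normal]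
    [∀ i, Finite (W G ⧸ N i)] (hanti : Antitone N) (hinf : ⨅ i, N i = ⊥) (n : ℕ) :
    IntegrableOn Real.log (Set.Ioi 0) (specMeas (evn G n) (lap G)) := by
  haveI : NeZero (Fintype.card (Finset V)) := ⟨Fintype.card_ne_zero⟩
  obtain ⟨C, hC⟩ := gm_bound N hanti hinf (aZ G) (aZ_inj hinj)
  have hNN : (1 : ℝ) ≤ (NN G : ℝ) ^ 2 := by
    have h : (1 : ℝ) ≤ (NN G : ℝ) := by exact_mod_cast NN_pos G
    nlinarith
  have hlog : 0 ≤ Real.log ((NN G : ℝ) ^ 2) := Real.log_nonneg hNN
  refine log_integrable (evn G n) (T2 G) T2_nonneg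
    (C := C + Real.log ((NN G : ℝ) ^ 2) * Fintype.card (Finset V)) fun M => ?_
  have hM : (0 : ℝ) ≤ M := Nat.cast_nonneg M
  have hgc : Continuous (fun x => gm (M : ℝ) ((NN G : ℝ) ^ 2 * x)) :=
    (gm_continuous M).comp (continuous_const.mul continuous_id)
  -- the part of degree `n`
  have s1 : traceVal (evn G n) (T2 G) (gm M) ≤ traceVal (ev G) (T2 G) (gm M) := by
    rw [traceVal_cv, traceVal_cv]
    refine Finset.sum_le_sum fun j _ => ?_
    have h0 : 0 ≤ cv (ev G j) (T2 G) (gm (M : ℝ)) := cv_nonneg _ _ _ fun x => gm_nonneg hM x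
    unfold evn
    split_ifs
    · exact le_rfl
    · rw [cv_zero]
      exact h0
  have s2 : traceVal (ev G) (T2 G) (gm M) ≤
      traceVal (ev G) (T2 G) (fun x => gm (M : ℝ) ((NN G : ℝ) ^ 2 * x) + Real.log ((NN G : ℝ) ^ 2)) :=
    traceVal_mono (ev G) (T2 G) T2_nonneg le_rfl (gm_continuous M) (hgc.add continuous_const)
      (fun x hx => gm_scale hM hNN hx.1)
  have s3 : traceVal (ev G) (T2 G) (fun _ => Real.log ((NN G : ℝ) ^ 2)) ≤
      Real.log ((NN G : ℝ) ^ 2) * Fintype.card (Finset V) := by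
    have e : (fun _ : ℝ => Real.log ((NN G : ℝ) ^ 2)) = fun x => Real.log ((NN G : ℝ) ^ 2) * x ^ 0 := by
      funext x; rw [pow_zero, mul_one]
    rw [e, tv_monomial _ _ T2_nonneg]
    refine mul_le_mul_of_nonneg_left ?_ hlog
    have h : ∀ j, (⟪ev G j, ((T2 G) ^ 0) (ev G j)⟫_ℂ).re ≤ 1 := by
      intro j
      have h2 : ‖ev G j‖ ^ 2 = (⟪ev G j, ev G j⟫_ℂ).re := norm_sq_eq_re_inner (𝕜 := ℂ) (ev G j)
      have h1 := norm_ev_le (G := G) j
      have h3 := norm_nonneg (ev G j)
      rw [pow_zero]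
      show (⟪ev G j, ev G j⟫_ℂ).re ≤ 1
      rw [← h2]
      nlinarith
    refine (Finset.sum_le_sum fun j _ => h j).trans (le_of_eq ?_)
    simp
  have s4 := hC M hM
  have s5 := compare (G := G) (gm_continuous (M : ℝ))
  have s6 : 0 ≤ (∑ j, (1 - (⟪ev G j, ev G j⟫_ℂ).re)) * gm (M : ℝ) ((NN G : ℝ) ^ 2) :=
    mul_nonneg rest_nonneg (gm_nonneg hM _)
  have s7 : traceVal unitVec (A2 G) (gm M) ≤ C := s4
  rw [tv_add _ _ hgc continuous_const] at s2
  linarith

theorem detn_pos (hinj : ∀ x : LC G, lap G x = 0 → x = 0) (N : ℕ → Subgroup (W G)) [∀ i, (N i).Normal]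
    [∀ i, Finite (W G ⧸ N i)] (hanti : Antitone N) (hinf : ⨅ i, N i = ⊥) (n : ℕ) : 0 < detn G n := by
  unfold detn detOf
  rw [if_pos (log_int hinj N hanti hinf n)]
  exact Real.exp_pos _

theorem log_detn (hinj : ∀ x : LC G, lap G x = 0 → x = 0) (N : ℕ → Subgroup (W G)) [∀ i, (N i).Normal]
    [∀ i, Finite (W G ⧸ N i)] (hanti : Antitone N) (hinf : ⨅ i, N i = ⊥) (n : ℕ) :
    Real.log (detn G n) = 1 / 2 * ∫ x in Set.Ioi (0 : ℝ), Real.log x ∂(specMeas (evn G n) (lap G)) := by
  unfold detn detOf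
  rw [if_pos (log_int hinj N hanti hinf n), Real.log_exp]

omit [LinearOrder V] in
theorem sum_evn (F : LC G → ℝ) (hF : F 0 = 0) (c : ℕ → ℝ) :
    ∑ n ∈ Finset.range (Fintype.card V + 1), c n * ∑ j, F (evn G n j) = ∑ j, c (sx V j).card * F (ev G j) := by
  classical
  simp only [Finset.mul_sum]
  rw [Finset.sum_comm]
  refine Finset.sum_congr rfl fun j _ => ?_
  rw [Finset.sum_eq_single (sx V j).card]
  · unfold evn
    rw [if_pos rfl]
  · intro n _ hn
    unfold evn
    rw [if_neg (Ne.symm hn), hF, mul_zero]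
  · intro h
    exact absurd (Finset.mem_range.mpr (Nat.lt_succ_of_le (Finset.card_le_univ _))) h

theorem moment_re (k : ℕ) (c : Finset V → ℝ) :
    ∑ j, c (sx V j) * (⟪ev G j, ((T2 G) ^ k) (ev G j)⟫_ℂ).re = (∑ T, (c T : ℂ) * mo G T (2 * k)).re := by
  rw [← (sx V).sum_comp, Complex.re_sum]
  refine Finset.sum_congr rfl fun j _ => ?_
  rw [T2_pow, inner_lap_pow, Complex.re_ofReal_mul]

/-- the torsion vanishes if the graded supertraces vanish -/
theorem rho_zero (hst : ∀ m, stn G m = 0) (hinj : ∀ x : LC G, lap G x = 0 → x = 0)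
    (N : ℕ → Subgroup (W G)) [∀ i, (N i).Normal]
    [∀ i, Finite (W G ⧸ N i)] (hanti : Antitone N) (hinf : ⨅ i, N i = ⊥) : rho G = 0 := by
  have hmom : ∀ k : ℕ, ∑ j, ((-1 : ℝ) ^ (sx V j).card * (sx V j).card) *
      (⟪ev G j, ((T2 G) ^ k) (ev G j)⟫_ℂ).re = 0 := by
    intro k
    have h := moment_re (G := G) k (fun T => (-1 : ℝ) ^ T.card * T.card)
    have h2 := hst (2 * k)
    unfold stn at h2
    rw [h]
    push_cast
    rw [h2, Complex.zero_re]
  have h1 : ∀ f : C_c(ℝ, ℝ), ∑ n ∈ Finset.range (Fintype.card V + 1), ((-1 : ℝ) ^ n * n) *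
      ∫ x, f x ∂(specMeas (evn G n) (lap G)) = 0 := by
    intro f
    have e : ∀ n, ∫ x, f x ∂(specMeas (evn G n) (lap G)) = ∑ j, cv (evn G n j) (T2 G) f :=
      fun n => integral_cv (evn G n) (T2 G) f
    rw [Finset.sum_congr rfl fun n _ => by rw [e n],
      sum_evn (fun x => cv x (T2 G) f) (cv_zero _ _) (fun n => (-1) ^ n * n)]
    have h2 := wv_eq (fun j => (-1 : ℝ) ^ (sx V j).card * (sx V j).card) (ev G) norm_ev_le (T2 G) T2_nonneg
      (fun k => hmom (k + 1)) f.continuous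
    rw [wv_cv] at h2
    refine Eq.trans h2 ?_
    have h3 := hmom 0
    have h4 : ∀ j, ((T2 G) ^ 0) (ev G j) = ev G j := fun j => by rw [pow_zero]; rfl
    simp only [h4] at h3
    rw [h3, mul_zero]
  have h2 := log_relation (Finset.range (Fintype.card V + 1)) (fun n => (-1 : ℝ) ^ n * n)
    (fun n => specMeas (evn G n) (lap G)) h1 (fun n _ => log_int hinj N hanti hinf n)
  unfold rho
  have e : ∀ n ∈ Finset.range (Fintype.card V + 1), (-1 : ℝ) ^ n * n * Real.log (detn G n) =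
      1 / 2 * ((-1 : ℝ) ^ n * n * ∫ x in Set.Ioi (0 : ℝ), Real.log x ∂(specMeas (evn G n) (lap G))) := by
    intro n _
    rw [log_detn hinj N hanti hinf n]
    ring
  rw [Finset.sum_congr rfl e, ← Finset.mul_sum, h2, mul_zero, mul_zero]

/-- the supertraces vanish if the Laplacian is injective -/
theorem stg_zero (hinj : ∀ x : LC G, lap G x = 0 → x = 0) (m : ℕ) : stg G m = 0 := by
  rcases m with _ | m
  · have h1 : ∑ j, ((-1 : ℝ) ^ (sx V j).card) * (⟪ev G j, ev G j⟫_ℂ).re = 0 := by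
      refine euler_zero (fun j => (-1 : ℝ) ^ (sx V j).card) (fun j => by simp) (ev G) norm_ev_le (T2 G)
        T2_nonneg (T2_inj hinj) fun k => ?_
      have h := moment_re (G := G) (k + 1) (fun T => (-1 : ℝ) ^ T.card)
      have h2 := stg_succ (G := G) (2 * k + 1)
      unfold stg at h2
      rw [h]
      push_cast
      rw [show 2 * (k + 1) = 2 * k + 1 + 1 by ring, h2, Complex.zero_re]
    rw [stg_eq]
    have e : ∀ j, ⟪ev G j, eps G (((lap G) ^ 0) (ev G j))⟫_ℂ =
        ((((-1 : ℝ) ^ (sx V j).card) * (⟪ev G j, ev G j⟫_ℂ).re : ℝ) : ℂ) := by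
      intro j
      have e0 : ((lap G) ^ 0) (ev G j) = ev G j := by rw [pow_zero]; rfl
      rw [e0, inner_ev, coord_eps, ← inner_ev]
      have e1 : ((⟪ev G j, ev G j⟫_ℂ).re : ℂ) = ⟪ev G j, ev G j⟫_ℂ := by
        have := inner_self_ofReal_re (𝕜 := ℂ) (ev G j)
        exact this
      push_cast
      rw [e1]
    rw [Finset.sum_congr rfl fun j _ => e j, ← Complex.ofReal_sum, h1, Complex.ofReal_zero]
  · exact stg_succ m

end

end Pool.Agent.N504.TL
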