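import Pool.Agent.N504.TL.Rho

/-!
# The Laplacian is injective if there are no harmonic chains
-/

set_option autoImplicit false

open scoped InnerProductSpace Topology

noncomputable section

namespace Pool.Agent.N504.TL

open Pool.Agent.W907.SG Pool.Agent.Helper993.FK Pool.Agent.W461.SGN Pool.Agent.N504.TG

variable {V : Type} [Fintype V] [LinearOrder V] {G : SimpleGraph V}

/-- the part of degree `i` of a real function -/
def gr (i : ℕ) (c : W G → Finset V → ℝ) : W G → Finset V → ℝ := fun w T => if T.card = i then c w T else 0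

theorem harm_aux (x : LC G) (hd : dL G x = 0) (hs : sL G x = 0) (i : ℕ) (φ : ℂ →ₗ[ℝ] ℝ)
    (hφ : ∀ z, |φ z| ≤ ‖z‖) : IsHarm G i (gr i fun w T => φ (fn x.1 w T)) := by
  have hmul : ∀ (k : ℤ) (z : ℂ), φ ((k : ℂ) * z) = (k : ℝ) * φ z := by
    intro k z
    have e : (k : ℂ) * z = (k : ℝ) • z := by rw [Complex.real_smul]; push_cast; rfl
    rw [e, map_smul, smul_eq_mul]
  refine ⟨fun w T hT => ?_, fun w T t ht => ?_, ?_, fun w T => ?_, fun w T hT => ?_⟩
  · unfold gr
    by_cases h : T.card = i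
    · rw [if_pos h]
      have hq : ¬ G.IsClique (T : Set V) := fun hq => hT ⟨hq, h⟩
      have h1 : fn x.1 w T = 0 := x.2.1 _ _ (by rwa [Equiv.apply_symm_apply])
      show φ (fn x.1 w T) = 0
      rw [h1, map_zero]
    · rw [if_neg h]
  · unfold gr
    by_cases h : T.card = i
    · rw [if_pos h, if_pos h]
      have h1 : fn x.1 (w * (cox G).simple t) T = - fn x.1 w T := x.2.2 _ _ _ (by rwa [Equiv.apply_symm_apply])
      show φ (fn x.1 (w * (cox G).simple t) T) = - φ (fn x.1 w T)
      rw [h1, map_neg]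
    · rw [if_neg h, if_neg h, neg_zero]
  · have h1 := coord_summable x.1
    let ψ : W G × Finset V ≃ Fin (Fintype.card (Finset V)) × W G :=
      (Equiv.prodComm _ _).trans (Equiv.prodCongr (sx V).symm (Equiv.refl _))
    have h2 := (ψ.summable_iff).mpr h1
    refine h2.of_nonneg_of_le (fun p => sq_nonneg _) fun p => ?_
    show (gr i (fun w T => φ (fn x.1 w T)) p.1 p.2) ^ 2 ≤
      ‖coord x.1 ((sx V).symm p.2) p.1‖ ^ ((2 : ENNReal).toReal)
    have e2 : ((2 : ENNReal).toReal) = ((2 : ℕ) : ℝ) := by norm_num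
    rw [e2, Real.rpow_natCast]
    unfold gr
    by_cases h : p.2.card = i
    · rw [if_pos h]
      have h3 := hφ (fn x.1 p.1 p.2)
      have h4 : fn x.1 p.1 p.2 = coord x.1 ((sx V).symm p.2) p.1 := rfl
      rw [h4] at h3
      show (φ (fn x.1 p.1 p.2)) ^ 2 ≤ _
      rw [h4, ← sq_abs]
      exact pow_le_pow_left₀ (abs_nonneg _) h3 2
    · rw [if_neg h]
      have := norm_nonneg (coord x.1 ((sx V).symm p.2) p.1)
      nlinarith [sq_nonneg ‖coord x.1 ((sx V).symm p.2) p.1‖]
  · by_cases h : T.card + 1 = i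
    · have h1 : dF G (fn x.1) w T = 0 := by
        rw [← fn_dL, hd]; rfl
      rw [dF_apply] at h1
      have h2 := congrArg φ h1
      rw [map_sum, map_zero] at h2
      refine Eq.trans (Finset.sum_congr rfl fun v hv => ?_) h2
      rw [hmul]
      unfold gr
      rw [if_pos (by rw [Finset.card_insert_of_notMem (Finset.mem_compl.mp hv)]; exact h)]
    · refine Finset.sum_eq_zero fun v hv => ?_
      unfold gr
      rw [if_neg (by rw [Finset.card_insert_of_notMem (Finset.mem_compl.mp hv)]; exact h), mul_zero]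
  · by_cases h : T.card = i + 1
    · have h1 : dS G (fn x.1) w T = 0 := by
        rw [← fn_sL, hs]; rfl
      rw [dS_apply _ _ hT] at h1
      have h2 : ∑ t ∈ T, (sg t (T.erase t) : ℂ) * (fn x.1 w (T.erase t) -
          fn x.1 (w * (cox G).simple t) (T.erase t)) = 0 := by
        have e : ∑ t ∈ T, (sg t (T.erase t) : ℂ) * (fn x.1 w (T.erase t) -
          fn x.1 (w * (cox G).simple t) (T.erase t)) = 2 * ∑ t ∈ T, (sg t (T.erase t) : ℂ) / 2 *
            (fn x.1 w (T.erase t) - fn x.1 (w * (cox G).simple t) (T.erase t)) := by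
          rw [Finset.mul_sum]
          exact Finset.sum_congr rfl fun t _ => by ring
        rw [e, h1, mul_zero]
      have h3 := congrArg φ h2
      rw [map_sum, map_zero] at h3
      refine Eq.trans (Finset.sum_congr rfl fun t ht => ?_) h3
      rw [hmul, map_sub]
      unfold gr
      have h4 : (T.erase t).card = i := by rw [Finset.card_erase_of_mem ht, h]; rfl
      rw [if_pos h4, if_pos h4]
    · refine Finset.sum_eq_zero fun t ht => ?_
      unfold gr
      have h4 : (T.erase t).card ≠ i := by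
        rw [Finset.card_erase_of_mem ht]
        intro h5
        have := Finset.card_pos.mpr ⟨t, ht⟩
        omega
      rw [if_neg h4, if_neg h4, sub_zero, mul_zero]

theorem lap_inj (hv : ∀ i, L2Van G i) (x : LC G) (hx : lap G x = 0) : x = 0 := by
  have h1 : ⟪x, lap G x⟫_ℂ = 2 * ((‖dL G x‖ ^ 2 + ‖sL G x‖ ^ 2 : ℝ) : ℂ) := by
    rw [lap_app, inner_smul_right, inner_add_right]
    have e1 : ⟪x, sL G (dL G x)⟫_ℂ = ((‖dL G x‖ ^ 2 : ℝ) : ℂ) := by
      rw [← adj_dL, ContinuousLinearMap.adjoint_inner_right, inner_self_eq_norm_sq_to_K]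
      push_cast; rfl
    have e2 : ⟪x, dL G (sL G x)⟫_ℂ = ((‖sL G x‖ ^ 2 : ℝ) : ℂ) := by
      rw [← adj_dL, ← ContinuousLinearMap.adjoint_inner_left, inner_self_eq_norm_sq_to_K]
      push_cast; rfl
    rw [e1, e2]
    push_cast; ring
  rw [hx, inner_zero_right] at h1
  have h2 : (‖dL G x‖ ^ 2 + ‖sL G x‖ ^ 2 : ℝ) = 0 := by
    have h3 : ((‖dL G x‖ ^ 2 + ‖sL G x‖ ^ 2 : ℝ) : ℂ) = 0 := by
      have := h1.symm
      rcases mul_eq_zero.mp this with h | h
      · norm_num at h
      · exact h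
    exact_mod_cast h3
  have hd : dL G x = 0 := by
    rw [← norm_eq_zero]
    nlinarith [sq_nonneg ‖dL G x‖, sq_nonneg ‖sL G x‖, norm_nonneg (dL G x)]
  have hs : sL G x = 0 := by
    rw [← norm_eq_zero]
    nlinarith [sq_nonneg ‖dL G x‖, sq_nonneg ‖sL G x‖, norm_nonneg (sL G x)]
  apply fn_inj
  funext w T
  show fn x.1 w T = 0
  have r1 := congrFun (congrFun (hv _ _ (harm_aux x hd hs T.card Complex.reLm Complex.abs_re_le_norm)) w) T
  have r2 := congrFun (congrFun (hv _ _ (harm_aux x hd hs T.card Complex.imLm Complex.abs_im_le_norm)) w) T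
  unfold gr at r1 r2
  rw [if_pos rfl] at r1 r2
  exact Complex.ext r1 r2

end Pool.Agent.N504.TL
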